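import Pool.Agent.H749R2.Kak.Defs

set_option autoImplicit false
open MeasureTheory Set Filter Topology
open scoped BigOperators

namespace Pool.Agent.H749R2.Kak.BP
open Pool.Agent.H749R2.Kak

/-! ## K1 -/

/-- K1: Piola identity. -/
theorem piola {m : ℕ} {φ G : E m → E m} (hφ : ContDiff ℝ 2 φ) (hG : ContDiff ℝ 1 G) (v : E m) :
    (∀ j : Fin m, DifferentiableAt ℝ (fun w => ((Dr φ w).updateRow j (G w)).det) v) ∧
    ∑ j, fderiv ℝ (fun w => ((Dr φ w).updateRow j (G w)).det) v (e j)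
      = ∑ j, ((Dr φ v).updateRow j (fderiv ℝ G v (e j))).det := by
  sorry

/-- K1: continuity of the divergence. -/
theorem piola_cont {m : ℕ} {φ G : E m → E m} (hφ : ContDiff ℝ 2 φ) (hG : ContDiff ℝ 1 G) :
    Continuous fun v => ∑ j, ((Dr φ v).updateRow j (fderiv ℝ G v (e j))).det := by
  sorry

/-! ## K2 -/

/-- K2: `∑_j det (row j replaced by B (row j)) = tr B · det M`. -/
theorem sum_det_apply {m : ℕ} (M : Matrix (Fin m) (Fin m) ℝ) (B : E m →L[ℝ] E m) :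
    ∑ j, (M.updateRow j (B (M j))).det = (∑ i, (B (e i)) i) * M.det := by
  sorry

/-- K2: Cramer. -/
theorem sum_mul_det {m : ℕ} (M : Matrix (Fin m) (Fin m) ℝ) (ℓ : E m →L[ℝ] ℝ) (x : E m) :
    ∑ j, ℓ (M j) * (M.updateRow j x).det = ℓ x * M.det := by
  sorry

/-- K2: bound for determinants. -/
theorem abs_det_updateRow_le {m : ℕ} {M : Matrix (Fin m) (Fin m) ℝ} {x : E m} {Λ κ : ℝ}
    (hM : ∀ i j, |M i j| ≤ Λ) (hx : ‖x‖ ≤ κ) (j : Fin m) :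
    |(M.updateRow j x).det| ≤ m.factorial * Λ ^ (m - 1) * κ := by
  sorry

/-- K2: derivative of `s ↦ det (M + s N)`. -/
theorem hasDerivAt_det {m : ℕ} (M N : Matrix (Fin m) (Fin m) ℝ) (s : ℝ) :
    HasDerivAt (fun s : ℝ => (M + s • N).det) (∑ j, ((M + s • N).updateRow j (N j)).det) s := by
  sorry

/-- K2: finite difference of `t ↦ det (M + t)`. -/
theorem fin_diff {m : ℕ} (M : Matrix (Fin m) (Fin m) ℝ) (x h : ℝ) :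
    ∑ i ∈ Finset.range (m + 1), (-1 : ℝ) ^ (m - i) * (m.choose i) *
      (M + (x + i * h) • (1 : Matrix (Fin m) (Fin m) ℝ)).det = m.factorial * h ^ m := by
  sorry

/-! ## K3 -/

/-- K3: divergence theorem on the unit cube. -/
theorem div_cube {m : ℕ} (hm : 1 ≤ m) {Y : Fin m → E m → ℝ}
    (hd : ∀ j v, DifferentiableAt ℝ (Y j) v)
    (hc : Continuous fun v => ∑ j, fderiv ℝ (Y j) v (e j)) {K : ℝ}
    (hK : ∀ j, ∀ v ∈ cube m, |Y j v| ≤ K) :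
    |∫ v in cube m, ∑ j, fderiv ℝ (Y j) v (e j)| ≤ 2 * m * K := by
  sorry

/-! ## K4 -/

/-- K4: homotopy estimate. -/
theorem homotopy {m : ℕ} (hm : 1 ≤ m) {φ ψ : E m → E m} (hφ : ContDiff ℝ 2 φ)
    (hψ : ContDiff ℝ 2 ψ) {χ : E m → ℝ} (hχ : ContDiff ℝ 1 χ) (h1 : ∀ y, |χ y| ≤ 1)
    {Λ κ : ℝ} (hD : ∀ s ∈ Icc (0:ℝ) 1, ∀ v ∈ cube m, ∀ i j,
      |Dr (fun w => φ w + s • ψ w) v i j| ≤ Λ) (hκ : ∀ v ∈ cube m, ‖ψ v‖ ≤ κ) :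
    |(∫ v in cube m, χ (φ v + ψ v) * jac (fun w => φ w + ψ w) v)
        - ∫ v in cube m, χ (φ v) * jac φ v| ≤ 2 * m * (m.factorial * Λ ^ (m - 1) * κ) := by
  sorry

/-! ## K5 -/

/-- K5: if `χ` is approximately the divergence of a small vector field then `∫ χ(φ) jac φ` is
small. -/
theorem field_est {m : ℕ} (hm : 1 ≤ m) {φ : E m → E m} (hφ : ContDiff ℝ 2 φ)
    {F : E m → E m} (hF : ContDiff ℝ 1 F) {Λ σ : ℝ} (hD : ∀ v ∈ cube m, ∀ i j, |Dr φ v i j| ≤ Λ)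
    (hσ : ∀ y, ‖F y‖ ≤ σ) :
    |∫ v in cube m, (∑ i, fderiv ℝ F (φ v) (e i) i) * jac φ v|
      ≤ 2 * m * (m.factorial * Λ ^ (m - 1) * σ) := by
  sorry

/-- K5: consequence for a cut-off function of small support (uses `exists_field`). -/
theorem small_supp {m : ℕ} (hm : 2 ≤ m) {φ : E m → E m} (hφ : ContDiff ℝ 2 φ)
    {χ : E m → ℝ} (hχ : ContDiff ℝ 1 χ) (hc : HasCompactSupport χ) (h0 : ∀ y, 0 ≤ χ y)
    (h1 : ∀ y, χ y ≤ 1) {s : ℝ} (hs : 0 < s) (hvol : volume (tsupport χ) ≤ ENNReal.ofReal (s ^ m))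
    {Λ : ℝ} (hD : ∀ v ∈ cube m, ∀ i j, |Dr φ v i j| ≤ Λ) :
    |∫ v in cube m, χ (φ v) * jac φ v| ≤ 4 * m * (m.factorial * Λ ^ (m - 1) * s) := by
  sorry

/-! ## K6 -/

/-- K6: a bounded vector field whose divergence is almost `χ`. -/
theorem exists_field {m : ℕ} (hm : 2 ≤ m) {χ : E m → ℝ} (hχ : ContDiff ℝ 1 χ)
    (hc : HasCompactSupport χ) (h0 : ∀ y, 0 ≤ χ y) (h1 : ∀ y, χ y ≤ 1) {s : ℝ} (hs : 0 < s)
    (hvol : volume (tsupport χ) ≤ ENNReal.ofReal (s ^ m)) {η : ℝ} (hη : 0 < η) :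
    ∃ F : E m → E m, ContDiff ℝ 1 F ∧ (∀ y, ‖F y‖ ≤ 2 * s) ∧
      ∀ y, |∑ i, fderiv ℝ F y (e i) i - χ y| ≤ η := by
  sorry

/-! ## K7 -/

/-- K7: mollification of Hoelder maps. -/
theorem mollify (m : ℕ) : ∃ C : ℝ, 0 < C ∧ ∀ {α H ρ : ℝ}, 0 < α → α ≤ 1 → 0 ≤ H → 0 < ρ →
    ∀ a : E m → E m, (∀ x y, ‖a x - a y‖ ≤ H * ‖x - y‖ ^ α) →
    ∃ b : E m → E m, ContDiff ℝ 2 b ∧ (∀ x, ‖b x - a x‖ ≤ H * ρ ^ α) ∧
      ∀ x i j, |Dr b x i j| ≤ C * (H * ρ ^ (α - 1)) := by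
  sorry

/-! ## K9 -/

/-- K9: the key estimate for the mollified maps. -/
theorem key {m : ℕ} (hm : 2 ≤ m) {α : ℝ} (hα : ((m:ℝ) - 1) / m < α) (hα1 : α ≤ 1) :
    ∃ C : ℝ, 0 < C ∧ ∀ {H : ℝ}, 1 ≤ H → ∀ a : E m → E m,
      (∀ x y, ‖a x - a y‖ ≤ H * ‖x - y‖ ^ α) → ∀ ρ ∈ Ioc (0:ℝ) 1,
      ∃ b : ℕ → E m → E m, (∀ k, ContDiff ℝ 2 (b k)) ∧ ∀ t ∈ Icc (0:ℝ) 1, ∀ s : ℝ, 0 < s →
        volume ((fun v => a v + t • v) '' cube m) < ENNReal.ofReal (s ^ m) →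
        ∀ᶠ k in atTop, |∫ v in cube m, jac (fun w => b k w + t • w) v|
          ≤ C * (H * ρ ^ (α - 1)) ^ (m - 1) * s + C * H ^ m * ρ ^ (1 - m * (1 - α)) := by
  sorry

/-! ## K10 -/

/-- K10: the theorem on the cube. -/
theorem cube_thm {m : ℕ} (hm : 2 ≤ m) {α : ℝ} (hα : ((m:ℝ) - 1) / m < α) (hα1 : α ≤ 1) :
    ∃ c : ℝ, 0 < c ∧ ∀ {H : ℝ}, 1 ≤ H → ∀ a : E m → E m,
      (∀ x ∈ cube m, ∀ y ∈ cube m, ‖a x - a y‖ ≤ H * ‖x - y‖ ^ α) →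
      ENNReal.ofReal (c * H ^ (-kap m α)) ≤ volume (segs a) := by
  sorry

/-! ## K11 -/

/-- K11: Kakeya sets with Hoelder selections have measure bounded below. Here `n = m + 1 ≥ 3`, the
direction `d` runs over unit vectors, `p d` is the centre of the unit segment in direction `d`. -/
theorem kakeya {n : ℕ} (hn : 3 ≤ n) {α : ℝ} (hα : ((n:ℝ) - 2) / (n - 1) < α) (hα1 : α ≤ 1)
    (H : ℝ) : ∃ μ : ℝ, 0 < μ ∧ ∀ (K : Set (EuclideanSpace ℝ (Fin n)))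
      (p : EuclideanSpace ℝ (Fin n) → EuclideanSpace ℝ (Fin n)),
      (∀ d d', ‖d‖ = 1 → ‖d'‖ = 1 → ‖p d - p d'‖ ≤ H * ‖d - d'‖ ^ α) →
      (∀ d, ‖d‖ = 1 → ∀ s ∈ Icc (-(1/2):ℝ) (1/2), p d + s • d ∈ K) →
      ENNReal.ofReal μ ≤ volume K := by
  sorry

end Pool.Agent.H749R2.Kak.BP
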