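import Mathlib

/-!
# Kakeya sets with Hoelder continuous selections: definitions
-/

set_option autoImplicit false
open MeasureTheory Set Filter Topology

namespace Pool.Agent.H749R2.Kak

/-- `ℝ^m` with the sup norm -/
abbrev E (m : ℕ) : Type := Fin m → ℝ

/-- standard basis vector -/
noncomputable def e {m : ℕ} (j : Fin m) : E m := Pi.single j 1

/-- the matrix whose `j`-th row is the partial derivative `∂_j φ (v)` (transposed Jacobian matrix) -/
noncomputable def Dr {m : ℕ} (φ : E m → E m) (v : E m) : Matrix (Fin m) (Fin m) ℝ :=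
  fun j => fderiv ℝ φ v (e j)

/-- Jacobian determinant -/
noncomputable def jac {m : ℕ} (φ : E m → E m) (v : E m) : ℝ := (Dr φ v).det

/-- unit cube `[0,1]^m` -/
def cube (m : ℕ) : Set (E m) := Icc 0 1

/-- the union of the segments `{(a(v) + t v, t) : 0 ≤ t ≤ 1}`, `v ∈ [0,1]^m` -/
def segs {m : ℕ} (a : E m → E m) : Set (E m × ℝ) :=
  {p | p.2 ∈ Icc (0:ℝ) 1 ∧ ∃ v ∈ cube m, p.1 = a v + p.2 • v}

/-- the exponent in the final estimate -/
noncomputable def kap (m : ℕ) (α : ℝ) : ℝ :=
  m * (m - 1) * (1 + m * (1 - α) / (1 - m * (1 - α)))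

end Pool.Agent.H749R2.Kak
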