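import Pool.Agent.H749R2.Kak.Defs

set_option autoImplicit false
open MeasureTheory Set Filter Topology
open scoped BigOperators

namespace Pool.Agent.H749R2.Kak

/-- linear forms in coordinates -/
theorem k2_lin {m : ℕ} (ℓ : E m →L[ℝ] ℝ) (y : E m) : ℓ y = ∑ k, ℓ (e k) * y k := by
  have hy : y = ∑ k, y k • (e k : E m) := by
    ext i
    simp [e, Finset.sum_apply, Pi.single_apply]
  conv_lhs => rw [hy]
  rw [map_sum]
  refine Finset.sum_congr rfl fun k _ => ?_
  rw [map_smul, smul_eq_mul, mul_comm]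

/-- K2: Cramer. -/
theorem sum_mul_det {m : ℕ} (M : Matrix (Fin m) (Fin m) ℝ) (ℓ : E m →L[ℝ] ℝ) (x : E m) :
    ∑ j, ℓ (M j) * (M.updateRow j x).det = ℓ x * M.det := by
  have h1 : ∀ j, ℓ (M j) * (M.updateRow j x).det =
      ∑ k, ℓ (e k) * (M.transpose k j * Matrix.cramer M.transpose x j) := by
    intro j
    rw [Matrix.cramer_transpose_apply, k2_lin ℓ (M j), Finset.sum_mul]
    refine Finset.sum_congr rfl fun k _ => ?_
    rw [Matrix.transpose_apply]
    ring
  rw [Finset.sum_congr rfl fun j _ => h1 j, Finset.sum_comm, k2_lin ℓ x, Finset.sum_mul]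
  refine Finset.sum_congr rfl fun k _ => ?_
  rw [← Finset.mul_sum]
  have h2 := congrFun (Matrix.mulVec_cramer M.transpose x) k
  rw [Matrix.mulVec, Matrix.det_transpose] at h2
  simp only [dotProduct, Pi.smul_apply, smul_eq_mul] at h2
  rw [h2]
  ring

/-- K2: `∑_j det (row j replaced by B (row j)) = tr B · det M`. -/
theorem sum_det_apply {m : ℕ} (M : Matrix (Fin m) (Fin m) ℝ) (B : E m →L[ℝ] E m) :
    ∑ j, (M.updateRow j (B (M j))).det = (∑ i, (B (e i)) i) * M.det := by
  have h1 : ∀ j, (M.updateRow j (B (M j))).det =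
      ∑ i, ((ContinuousLinearMap.proj i).comp B) (M j) * (M.updateRow j (e i)).det := by
    intro j
    have h2 : B (M j) = ∑ i, (B (M j)) i • (e i : E m) := by
      ext i
      simp [e, Finset.sum_apply, Pi.single_apply]
    rw [← Matrix.cramer_transpose_apply, h2, map_sum, Finset.sum_apply]
    refine Finset.sum_congr rfl fun i _ => ?_
    rw [map_smul, Pi.smul_apply, smul_eq_mul, Matrix.cramer_transpose_apply]
    rfl
  rw [Finset.sum_congr rfl fun j _ => h1 j, Finset.sum_comm, Finset.sum_mul]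
  refine Finset.sum_congr rfl fun i _ => ?_
  rw [sum_mul_det]
  rfl

/-- K2: bound for determinants. -/
theorem abs_det_updateRow_le {m : ℕ} {M : Matrix (Fin m) (Fin m) ℝ} {x : E m} {Λ κ : ℝ}
    (hM : ∀ i j, |M i j| ≤ Λ) (hx : ‖x‖ ≤ κ) (j : Fin m) :
    |(M.updateRow j x).det| ≤ m.factorial * Λ ^ (m - 1) * κ := by
  rw [Matrix.det_apply]
  refine le_trans (Finset.abs_sum_le_sum_abs _ _) ?_
  have h1 : ∀ σ ∈ (Finset.univ : Finset (Equiv.Perm (Fin m))),
      |Equiv.Perm.sign σ • ∏ i, M.updateRow j x (σ i) i| ≤ Λ ^ (m - 1) * κ := by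
    intro σ _
    have h2 : |Equiv.Perm.sign σ • ∏ i, M.updateRow j x (σ i) i| =
        ∏ i, |M.updateRow j x (σ i) i| := by
      rw [← Finset.abs_prod]
      rcases Int.units_eq_one_or (Equiv.Perm.sign σ) with h | h <;> rw [h] <;> simp
    rw [h2, ← Finset.mul_prod_erase Finset.univ _ (Finset.mem_univ (σ.symm j))]
    have h3 : |M.updateRow j x (σ (σ.symm j)) (σ.symm j)| ≤ κ := by
      rw [Equiv.apply_symm_apply, Matrix.updateRow_self]
      exact le_trans (norm_le_pi_norm x _) hx
    have h4 : ∏ i ∈ Finset.univ.erase (σ.symm j), |M.updateRow j x (σ i) i| ≤ Λ ^ (m - 1) := by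
      have h5 : ∏ i ∈ Finset.univ.erase (σ.symm j), |M.updateRow j x (σ i) i| ≤
          ∏ i ∈ Finset.univ.erase (σ.symm j), Λ := by
        refine Finset.prod_le_prod (fun i _ => abs_nonneg _) fun i hi => ?_
        have : σ i ≠ j := by
          intro hc
          apply Finset.ne_of_mem_erase hi
          rw [← hc, Equiv.symm_apply_apply]
        rw [Matrix.updateRow_ne this]
        exact hM _ _
      refine le_trans h5 ?_
      rw [Finset.prod_const, Finset.card_erase_of_mem (Finset.mem_univ _), Finset.card_univ,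
        Fintype.card_fin]
    have hκ : 0 ≤ κ := le_trans (norm_nonneg x) hx
    calc |M.updateRow j x (σ (σ.symm j)) (σ.symm j)| *
        ∏ i ∈ Finset.univ.erase (σ.symm j), |M.updateRow j x (σ i) i|
        ≤ κ * Λ ^ (m - 1) :=
          mul_le_mul h3 h4 (Finset.prod_nonneg fun i _ => abs_nonneg _) hκ
      _ = Λ ^ (m - 1) * κ := mul_comm _ _
  refine le_trans (Finset.sum_le_sum h1) ?_
  rw [Finset.sum_const, Finset.card_univ, Fintype.card_perm, Fintype.card_fin, nsmul_eq_mul]
  exact le_of_eq (by ring)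

/-- the determinant as a continuous multilinear function of the rows -/
noncomputable def detM (m : ℕ) : ContinuousMultilinearMap ℝ (fun _ : Fin m => Fin m → ℝ) ℝ :=
  { (Matrix.detRowAlternating (R := ℝ) (n := Fin m)).toMultilinearMap with
    cont := by
      change Continuous fun M : Matrix (Fin m) (Fin m) ℝ => M.det
      exact Continuous.matrix_det continuous_id }

theorem detM_apply {m : ℕ} (M : Fin m → Fin m → ℝ) :
    detM m M = Matrix.det (Matrix.of M) := rfl

/-- K2: derivative of `s ↦ det (M + s N)`. -/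
theorem hasDerivAt_det {m : ℕ} (M N : Matrix (Fin m) (Fin m) ℝ) (s : ℝ) :
    HasDerivAt (fun s : ℝ => (M + s • N).det) (∑ j, ((M + s • N).updateRow j (N j)).det) s := by
  have h1 : HasDerivAt (fun (s : ℝ) (i : Fin m) (k : Fin m) => M i k + s * N i k)
      (fun (i : Fin m) (k : Fin m) => N i k) s := by
    rw [hasDerivAt_pi]
    intro i
    rw [hasDerivAt_pi]
    intro k
    simpa using ((hasDerivAt_id s).mul_const (N i k)).const_add (M i k)
  have h2 := ((detM m).hasFDerivAt (fun (i : Fin m) (k : Fin m) => M i k + s * N i k)).comp_hasDerivAt s h1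
  rw [ContinuousMultilinearMap.linearDeriv_apply] at h2
  exact h2

/-- K2: finite difference of `t ↦ det (M + t)`. -/
theorem fin_diff {m : ℕ} (M : Matrix (Fin m) (Fin m) ℝ) (x h : ℝ) :
    ∑ i ∈ Finset.range (m + 1), (-1 : ℝ) ^ (m - i) * (m.choose i) *
      (M + (x + i * h) • (1 : Matrix (Fin m) (Fin m) ℝ)).det = m.factorial * h ^ m := by
  have hev : ∀ t : ℝ, (-M).charpoly.eval t = (M + t • (1 : Matrix (Fin m) (Fin m) ℝ)).det := by
    intro t
    rw [Matrix.eval_charpoly]
    congr 1
    rw [sub_neg_eq_add, add_comm, Matrix.smul_one_eq_diagonal, Matrix.scalar_apply]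
  rcases eq_or_ne h 0 with rfl | hh
  · rcases Nat.eq_zero_or_pos m with rfl | hm
    · simp
    · have h1 : ∑ i ∈ Finset.range (m + 1), (-1 : ℝ) ^ (m - i) * (m.choose i) = 0 := by
        have h2 := add_pow (1 : ℝ) (-1) m
        rw [add_neg_cancel, zero_pow hm.ne'] at h2
        rw [h2]
        refine Finset.sum_congr rfl fun i _ => ?_
        ring
      have h3 : ∀ i ∈ Finset.range (m + 1), (-1 : ℝ) ^ (m - i) * (m.choose i) *
          (M + (x + i * 0) • (1 : Matrix (Fin m) (Fin m) ℝ)).det =
          (-1 : ℝ) ^ (m - i) * (m.choose i) * (M + x • (1 : Matrix (Fin m) (Fin m) ℝ)).det := by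
        intro i _
        rw [mul_zero, add_zero]
      rw [Finset.sum_congr rfl h3, ← Finset.sum_mul, h1, zero_pow hm.ne']
      simp
  · set Q : Polynomial ℝ := (-M).charpoly.comp (Polynomial.C h * Polynomial.X + Polynomial.C x)
      with hQ
    have hP : (-M).charpoly.natDegree = m := by
      rw [Matrix.charpoly_natDegree_eq_dim, Fintype.card_fin]
    have hl : (Polynomial.C h * Polynomial.X + Polynomial.C x).natDegree = 1 :=
      Polynomial.natDegree_linear hh
    have hQd : Q.natDegree = m := by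
      rw [hQ, Polynomial.natDegree_comp, hP, hl, mul_one]
    have hQc : Q.coeff m = h ^ m := by
      have h1 := Polynomial.coeff_comp_degree_mul_degree (p := (-M).charpoly)
        (q := Polynomial.C h * Polynomial.X + Polynomial.C x) (by rw [hl]; norm_num)
      rw [hP, hl, mul_one, (Matrix.charpoly_monic (-M)).leadingCoeff, one_mul,
        Polynomial.leadingCoeff_linear hh] at h1
      exact h1
    have hfun : (fun r : ℝ => Q.eval r) = (fun r : ℝ => ∑ k ∈ Finset.range m, Q.coeff k * r ^ k) +
        (h ^ m) • (fun r : ℝ => r ^ m) := by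
      ext r
      rw [Polynomial.eval_eq_sum_range, hQd, Finset.sum_range_succ, hQc]
      simp
    have hD : (fwdDiff (1 : ℝ))^[m] (fun r : ℝ => Q.eval r) = fun _ => m.factorial * h ^ m := by
      rw [hfun, fwdDiff_iter_add, fwdDiff_iter_const_smul, fwdDiff_iter_sum_mul_pow_eq_zero,
        fwdDiff_iter_eq_factorial]
      ext r
      simp [mul_comm]
    have hS := fwdDiff_iter_eq_sum_shift (1 : ℝ) (fun r : ℝ => Q.eval r) m 0
    rw [hD] at hS
    simp only at hS
    rw [hS]
    refine Finset.sum_congr rfl fun i _ => ?_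
    have : Q.eval (0 + i • (1 : ℝ)) = (M + (x + i * h) • (1 : Matrix (Fin m) (Fin m) ℝ)).det := by
      rw [hQ, Polynomial.eval_comp, ← hev]
      congr 1
      simp
      ring
    rw [this, zsmul_eq_mul]
    push_cast
    ring

end Pool.Agent.H749R2.Kak
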