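import Pool.Agent.H749R2.Kak.Defs
import Pool.Agent.H749R2.Kak.K2

set_option autoImplicit false
open MeasureTheory Set Filter Topology
open scoped BigOperators

namespace Pool.Agent.H749R2.Kak

/-- coordinatewise projection to the cube -/
noncomputable def clampE {m : ℕ} (v : E m) : E m := fun i => max 0 (min 1 (v i))

lemma clampE_mem {m : ℕ} (v : E m) : clampE v ∈ cube m := by
  constructor
  · intro i; simp [clampE]
  · intro i; simp [clampE]

lemma clampE_of_mem {m : ℕ} {v : E m} (hv : v ∈ cube m) : clampE v = v := by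
  funext i
  have h0 : 0 ≤ v i := hv.1 i
  have h1 : v i ≤ 1 := hv.2 i
  simp [clampE, min_eq_right h1, max_eq_right h0]

lemma clampE_lip {m : ℕ} (x y : E m) : ‖clampE x - clampE y‖ ≤ ‖x - y‖ := by
  refine (pi_norm_le_iff_of_nonneg (norm_nonneg _)).2 fun i => ?_
  have h1 : ‖(clampE x - clampE y) i‖ ≤ ‖(x - y) i‖ := by
    simp only [Pi.sub_apply, clampE, Real.norm_eq_abs]
    calc |max 0 (min 1 (x i)) - max 0 (min 1 (y i))| ≤ |min 1 (x i) - min 1 (y i)| := by
          have := abs_max_sub_max_le_abs (min 1 (x i)) (min 1 (y i)) 0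
          simpa [max_comm] using this
      _ ≤ |x i - y i| := by
          have := abs_min_sub_min_le_max 1 (x i) 1 (y i)
          simpa using this
  exact h1.trans (norm_le_pi_norm _ i)

lemma jac_add_smul {m : ℕ} {b : E m → E m} (hb : ContDiff ℝ 2 b) (t : ℝ) (v : E m) :
    jac (fun w => b w + t • w) v = (Dr b v + t • (1 : Matrix (Fin m) (Fin m) ℝ)).det := by
  unfold jac
  congr 1
  funext j
  have h1 : DifferentiableAt ℝ b v := (hb.differentiable (by norm_num)) v
  have h2 : HasFDerivAt (fun w : E m => b w + t • w)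
      (fderiv ℝ b v + t • ContinuousLinearMap.id ℝ (E m)) v :=
    h1.hasFDerivAt.add ((hasFDerivAt_id v).const_smul t)
  show fderiv ℝ (fun w : E m => b w + t • w) v (e j) = _
  rw [h2.fderiv]
  funext i
  simp only [ContinuousLinearMap.add_apply, ContinuousLinearMap.smul_apply,
    ContinuousLinearMap.id_apply, Pi.add_apply, Pi.smul_apply, smul_eq_mul, Matrix.add_apply,
    Matrix.smul_apply, Dr, e]
  congr 2
  simp [Matrix.one_apply, Pi.single_apply, eq_comm]

lemma continuous_Dr_det {m : ℕ} {b : E m → E m} (hb : ContDiff ℝ 2 b) (t : ℝ) :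
    Continuous fun v => (Dr b v + t • (1 : Matrix (Fin m) (Fin m) ℝ)).det := by
  have h1 : Continuous (fderiv ℝ b) := hb.continuous_fderiv (by norm_num)
  have h2 : Continuous fun v => Dr b v := by
    refine continuous_pi fun j => ?_
    exact h1.clm_apply continuous_const
  exact (h2.add continuous_const).matrix_det

lemma isCompact_cube (m : ℕ) : IsCompact (cube m) := isCompact_Icc

lemma volume_cube (m : ℕ) : volume (cube m) = 1 := by
  rw [cube, Real.volume_Icc_pi]
  simp

lemma sum_integral {m : ℕ} {b : E m → E m} (hb : ContDiff ℝ 2 b) (x h : ℝ) :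
    ∑ i ∈ Finset.range (m + 1), (-1 : ℝ) ^ (m - i) * (m.choose i) *
      (∫ v in cube m, jac (fun w => b w + (x + i * h) • w) v) = m.factorial * h ^ m := by
  have h1 : ∀ i : ℕ, IntegrableOn
      (fun v => (Dr b v + (x + i * h) • (1 : Matrix (Fin m) (Fin m) ℝ)).det) (cube m) :=
    fun i => (continuous_Dr_det hb _).continuousOn.integrableOn_compact (isCompact_cube m)
  have h2 : ∀ i : ℕ, (∫ v in cube m, jac (fun w => b w + (x + i * h) • w) v)
      = ∫ v in cube m, (Dr b v + (x + i * h) • (1 : Matrix (Fin m) (Fin m) ℝ)).det := by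
    intro i
    refine integral_congr_ae (ae_of_all _ fun v => ?_)
    exact jac_add_smul hb _ v
  simp_rw [h2]
  have h3 : ∑ i ∈ Finset.range (m + 1), (-1 : ℝ) ^ (m - i) * (m.choose i) *
      (∫ v in cube m, (Dr b v + (x + i * h) • (1 : Matrix (Fin m) (Fin m) ℝ)).det)
      = ∫ v in cube m, ∑ i ∈ Finset.range (m + 1), (-1 : ℝ) ^ (m - i) * (m.choose i) *
        (Dr b v + (x + i * h) • (1 : Matrix (Fin m) (Fin m) ℝ)).det := by
    rw [integral_finset_sum]
    · refine Finset.sum_congr rfl fun i _ => ?_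
      rw [integral_const_mul]
    · intro i _
      exact (h1 i).const_mul _
  rw [h3]
  have h4 : (fun v : E m => ∑ i ∈ Finset.range (m + 1), (-1 : ℝ) ^ (m - i) * (m.choose i) *
        (Dr b v + (x + i * h) • (1 : Matrix (Fin m) (Fin m) ℝ)).det)
      = fun _ => m.factorial * h ^ m := by
    funext v
    exact fin_diff (Dr b v) x h
  rw [h4, setIntegral_const]
  simp [measureReal_def, volume_cube]

/-- slices of the union of the segments -/
lemma slice_segs {m : ℕ} (a : E m → E m) {t : ℝ} (ht : t ∈ Icc (0:ℝ) 1) :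
    (fun y : E m => (y, t)) ⁻¹' (segs a) = (fun v => a v + t • v) '' cube m := by
  ext y
  constructor
  · rintro ⟨-, v, hv, h⟩
    exact ⟨v, hv, h.symm⟩
  · rintro ⟨v, hv, h⟩
    exact ⟨ht, v, hv, h.symm⟩

lemma isCompact_segs {m : ℕ} {a : E m → E m} (ha : Continuous a) : IsCompact (segs a) := by
  have h : segs a = (fun p : E m × ℝ => (a p.1 + p.2 • p.1, p.2)) '' (cube m ×ˢ Icc (0:ℝ) 1) := by
    ext p
    constructor
    · rintro ⟨h1, v, hv, h⟩
      exact ⟨(v, p.2), ⟨hv, h1⟩, Prod.ext h.symm rfl⟩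
    · rintro ⟨⟨v, t⟩, ⟨hv, ht⟩, rfl⟩
      exact ⟨ht, v, hv, rfl⟩
  rw [h]
  refine ((isCompact_cube m).prod isCompact_Icc).image ?_
  fun_prop

/-- lower bound for the measure from lower bounds for slices -/
lemma volume_segs_ge {m : ℕ} {a : E m → E m} (ha : Continuous a) {q : ℝ} (hq : 0 ≤ q)
    (H : ∀ x ∈ Icc (0:ℝ) (1 / (m + 1)), ∃ i ∈ Finset.range (m + 1), ENNReal.ofReal q ≤
      volume ((fun v => a v + (x + i * (1 / (m + 1) : ℝ)) • v) '' cube m)) :
    ENNReal.ofReal (q * (1 / (m + 1) / (m + 1))) ≤ volume (segs a) := by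
  have hmeas : MeasurableSet (segs a) := (isCompact_segs ha).isClosed.measurableSet
  have hm1 : (0:ℝ) < m + 1 := by positivity
  set f : ℝ → ENNReal := fun t => volume ((fun y : E m => (y, t)) ⁻¹' (segs a)) with hf
  have hfm : Measurable f := measurable_measure_prodMk_right hmeas
  have hvol : volume (segs a) = ∫⁻ t, f t := by
    rw [Measure.volume_eq_prod, Measure.prod_apply_symm hmeas]
  set B : Set ℝ := {t | ENNReal.ofReal q ≤ f t} with hB
  have hBm : MeasurableSet B := measurableSet_le measurable_const hfm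
  have h1 : ENNReal.ofReal q * volume B ≤ volume (segs a) := by
    rw [hvol]; exact mul_meas_ge_le_lintegral hfm _
  have h2 : Icc (0:ℝ) (1 / (m + 1)) ⊆
      ⋃ i ∈ Finset.range (m + 1), (fun x : ℝ => x + i * (1 / (m + 1) : ℝ)) ⁻¹' B := by
    intro x hx
    obtain ⟨i, hi, h⟩ := H x hx
    simp only [mem_iUnion]
    refine ⟨i, hi, ?_⟩
    show ENNReal.ofReal q ≤ f (x + i * (1 / (m + 1) : ℝ))
    have him : (i:ℝ) ≤ m := by exact_mod_cast Nat.lt_succ_iff.1 (Finset.mem_range.1 hi)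
    have ht : x + i * (1 / (m + 1) : ℝ) ∈ Icc (0:ℝ) 1 := by
      constructor
      · have := hx.1; positivity
      · have h3 := hx.2
        calc x + i * (1 / (m + 1) : ℝ) ≤ 1 / (m + 1) + m * (1 / (m + 1) : ℝ) := by gcongr
          _ = 1 := by field_simp; ring
    rw [hf]
    simp only
    rw [slice_segs a ht]
    exact h
  have h3 : ENNReal.ofReal (1 / (m + 1)) ≤ (m + 1 : ℕ) * volume B := by
    calc ENNReal.ofReal (1 / (m + 1)) = volume (Icc (0:ℝ) (1 / (m + 1))) := by
          rw [Real.volume_Icc, sub_zero]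
      _ ≤ volume (⋃ i ∈ Finset.range (m + 1),
            (fun x : ℝ => x + i * (1 / (m + 1) : ℝ)) ⁻¹' B) := measure_mono h2
      _ ≤ ∑ i ∈ Finset.range (m + 1),
            volume ((fun x : ℝ => x + i * (1 / (m + 1) : ℝ)) ⁻¹' B) :=
          measure_biUnion_finset_le _ _
      _ = ∑ i ∈ Finset.range (m + 1), volume B := by
          refine Finset.sum_congr rfl fun i _ => ?_
          exact measure_preimage_add_right volume _ B
      _ = (m + 1 : ℕ) * volume B := by simp
  have h4 : ENNReal.ofReal (1 / (m + 1) / (m + 1)) ≤ volume B := by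
    rw [ENNReal.ofReal_div_of_pos hm1]
    refine ENNReal.div_le_of_le_mul ?_
    rw [mul_comm]
    convert h3 using 2
    rw [show ((m:ℝ) + 1) = ((m + 1 : ℕ) : ℝ) by push_cast; ring, ENNReal.ofReal_natCast]
  calc ENNReal.ofReal (q * (1 / (m + 1) / (m + 1)))
      = ENNReal.ofReal q * ENNReal.ofReal (1 / (m + 1) / (m + 1)) := ENNReal.ofReal_mul hq
    _ ≤ ENNReal.ofReal q * volume B := by gcongr
    _ ≤ volume (segs a) := h1

/-- The statement of K9 (`key`). -/
def KeyStmt (m : ℕ) (α : ℝ) : Prop :=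
    ∃ C : ℝ, 0 < C ∧ ∀ {H : ℝ}, 1 ≤ H → ∀ a : E m → E m,
      (∀ x y, ‖a x - a y‖ ≤ H * ‖x - y‖ ^ α) → ∀ ρ ∈ Ioc (0:ℝ) 1,
      ∃ b : ℕ → E m → E m, (∀ k, ContDiff ℝ 2 (b k)) ∧ ∀ t ∈ Icc (0:ℝ) 1, ∀ s : ℝ, 0 < s →
        volume ((fun v => a v + t • v) '' cube m) < ENNReal.ofReal (s ^ m) →
        ∀ᶠ k in atTop, |∫ v in cube m, jac (fun w => b k w + t • w) v|
          ≤ C * (H * ρ ^ (α - 1)) ^ (m - 1) * s + C * H ^ m * ρ ^ (1 - m * (1 - α))

/-- K10: the theorem on the cube, from K9. -/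
theorem cube_of {m : ℕ} (hm : 2 ≤ m) {α : ℝ} (hα : ((m:ℝ) - 1) / m < α) (hα1 : α ≤ 1)
    (hK9 : KeyStmt m α) :
    ∃ c : ℝ, 0 < c ∧ ∀ {H : ℝ}, 1 ≤ H → ∀ a : E m → E m,
      (∀ x ∈ cube m, ∀ y ∈ cube m, ‖a x - a y‖ ≤ H * ‖x - y‖ ^ α) →
      ENNReal.ofReal (c * H ^ (-kap m α)) ≤ volume (segs a) := by
  obtain ⟨C, hC, hkey⟩ := hK9
  have hm0 : (0:ℝ) < m := by positivity
  have hm2 : (2:ℝ) ≤ m := by exact_mod_cast hm
  set γ : ℝ := 1 - m * (1 - α) with hγ
  have hγ0 : 0 < γ := by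
    have h1 : (m:ℝ) - 1 < α * m := by
      have := (div_lt_iff₀ hm0).1 hα
      exact this
    rw [hγ]; nlinarith
  have hα0 : 0 < α := by
    refine lt_trans ?_ hα
    apply div_pos <;> linarith
  have hm1 : (0:ℝ) < m + 1 := by positivity
  set h : ℝ := 1 / (m + 1) with hh
  have hh0 : 0 < h := by rw [hh]; positivity
  set D : ℝ := m.factorial * h ^ m with hD
  have hD0 : 0 < D := by rw [hD]; positivity
  -- the constants
  obtain ⟨c1, hc10, hc11, hc1⟩ : ∃ c1 : ℝ, 0 < c1 ∧ c1 ≤ 1 ∧ 2 ^ m * C * c1 ^ γ ≤ D / 4 := by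
    set u : ℝ := D / 4 / (2 ^ m * C) with hu
    have hu0 : 0 < u := by positivity
    refine ⟨min 1 (u ^ (1 / γ)), lt_min one_pos (by positivity), min_le_left _ _, ?_⟩
    have h1 : (min 1 (u ^ (1 / γ))) ^ γ ≤ u := by
      calc (min 1 (u ^ (1 / γ))) ^ γ ≤ (u ^ (1 / γ)) ^ γ :=
            Real.rpow_le_rpow (le_min zero_le_one (by positivity)) (min_le_right _ _) hγ0.le
        _ = u := by
            rw [← Real.rpow_mul hu0.le, one_div, inv_mul_cancel₀ hγ0.ne', Real.rpow_one]
    calc 2 ^ m * C * (min 1 (u ^ (1 / γ))) ^ γ ≤ 2 ^ m * C * u := by gcongr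
      _ = D / 4 := by rw [hu]; field_simp
  set c2 : ℝ := D / 4 / (2 ^ m * C) with hc2
  have hc20 : 0 < c2 := by positivity
  refine ⟨c2 ^ m * (c1 ^ (1 - α)) ^ (m * (m - 1)) * (1 / (m + 1) / (m + 1)), by positivity, ?_⟩
  intro H hH a ha
  have hH0 : 0 < H := by linarith
  set a' : E m → E m := fun v => a (clampE v) with ha'
  have hHol : ∀ x y, ‖a' x - a' y‖ ≤ H * ‖x - y‖ ^ α := by
    intro x y
    refine (ha _ (clampE_mem x) _ (clampE_mem y)).trans ?_
    gcongr
    exact clampE_lip x y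
  have hcont : Continuous a' := by
    rw [continuous_iff_continuousAt]
    intro x
    rw [ContinuousAt, tendsto_iff_norm_sub_tendsto_zero]
    have h1 : Tendsto (fun y : E m => H * ‖y - x‖ ^ α) (𝓝 x) (𝓝 0) := by
      have h2 : Continuous fun y : E m => H * ‖y - x‖ ^ α := by
        refine continuous_const.mul ?_
        exact (continuous_norm.comp (continuous_id.sub continuous_const)).rpow_const
          fun _ => Or.inr hα0.le
      have h3 := h2.tendsto x
      simpa [Real.zero_rpow hα0.ne'] using h3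
    exact squeeze_zero (fun _ => norm_nonneg _) (fun y => hHol y x) h1
  have hsegs : segs a' = segs a := by
    ext p
    constructor
    · rintro ⟨h1, v, hv, h2⟩
      refine ⟨h1, v, hv, ?_⟩
      rw [h2, ha']; simp only; rw [clampE_of_mem hv]
    · rintro ⟨h1, v, hv, h2⟩
      refine ⟨h1, v, hv, ?_⟩
      rw [h2, ha']; simp only; rw [clampE_of_mem hv]
  set ρ : ℝ := c1 * H ^ (-(m / γ)) with hρ
  have hρ0 : 0 < ρ := by positivity
  have hHle : H ^ (-(m / γ)) ≤ 1 :=
    Real.rpow_le_one_of_one_le_of_nonpos hH (by rw [neg_nonpos]; positivity)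
  have hρ1 : ρ ≤ 1 := by
    calc ρ ≤ 1 * 1 := by rw [hρ]; gcongr
      _ = 1 := one_mul 1
  obtain ⟨b, hb, hbk⟩ := hkey hH a' hHol ρ ⟨hρ0, hρ1⟩
  set w : ℝ := H * ρ ^ (α - 1) with hw
  have hw0 : 0 < w := by positivity
  set s : ℝ := c2 * (w ^ (m - 1))⁻¹ with hs
  have hs0 : 0 < s := by positivity
  have hA : 2 ^ m * (C * w ^ (m - 1) * s) ≤ D / 4 := by
    have : w ^ (m - 1) * s = c2 := by rw [hs]; field_simp
    calc 2 ^ m * (C * w ^ (m - 1) * s) = 2 ^ m * C * (w ^ (m - 1) * s) := by ring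
      _ = D / 4 := by rw [this, hc2]; field_simp
      _ ≤ D / 4 := le_rfl
  have hB : 2 ^ m * (C * H ^ m * ρ ^ γ) ≤ D / 4 := by
    have h1 : H ^ m * ρ ^ γ = c1 ^ γ := by
      rw [hρ, Real.mul_rpow hc10.le (by positivity), ← Real.rpow_mul hH0.le,
        neg_mul, div_mul_cancel₀ _ hγ0.ne', Real.rpow_neg hH0.le, Real.rpow_natCast]
      field_simp
    calc 2 ^ m * (C * H ^ m * ρ ^ γ) = 2 ^ m * C * (H ^ m * ρ ^ γ) := by ring
      _ ≤ D / 4 := by rw [h1]; exact hc1
  -- the claim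
  have claim : ∀ x ∈ Icc (0:ℝ) (1 / (m + 1)), ∃ i ∈ Finset.range (m + 1),
      ENNReal.ofReal (s ^ m) ≤
        volume ((fun v => a' v + (x + i * (1 / (m + 1) : ℝ)) • v) '' cube m) := by
    intro x hx
    by_contra hcon
    push Not at hcon
    have hev : ∀ i ∈ Finset.range (m + 1), ∀ᶠ k in atTop,
        |∫ v in cube m, jac (fun w => b k w + (x + i * h) • w) v|
          ≤ C * w ^ (m - 1) * s + C * H ^ m * ρ ^ γ := by
      intro i hi
      have him : (i:ℝ) ≤ m := by exact_mod_cast Nat.lt_succ_iff.1 (Finset.mem_range.1 hi)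
      refine hbk (x + i * h) ?_ s hs0 (hcon i hi)
      constructor
      · have := hx.1; positivity
      · have h3 := hx.2
        calc x + i * h ≤ 1 / (m + 1) + m * (1 / (m + 1) : ℝ) := by gcongr
          _ = 1 := by field_simp; ring
    have hev' := (Filter.eventually_all_finset (Finset.range (m + 1))).2 hev
    obtain ⟨k, hk⟩ := hev'.exists
    have hsum := sum_integral (hb k) x h
    have hle : |∑ i ∈ Finset.range (m + 1), (-1 : ℝ) ^ (m - i) * (m.choose i) *
        (∫ v in cube m, jac (fun w => b k w + (x + i * h) • w) v)| ≤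
        2 ^ m * (C * w ^ (m - 1) * s + C * H ^ m * ρ ^ γ) := by
      refine (Finset.abs_sum_le_sum_abs _ _).trans ?_
      calc ∑ i ∈ Finset.range (m + 1), |(-1 : ℝ) ^ (m - i) * (m.choose i) *
            (∫ v in cube m, jac (fun w => b k w + (x + i * h) • w) v)|
          ≤ ∑ i ∈ Finset.range (m + 1), (m.choose i : ℝ) *
            (C * w ^ (m - 1) * s + C * H ^ m * ρ ^ γ) := by
            refine Finset.sum_le_sum fun i hi => ?_
            rw [abs_mul, abs_mul, abs_pow, abs_neg, abs_one, one_pow, one_mul, Nat.abs_cast]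
            exact mul_le_mul_of_nonneg_left (hk i hi) (by positivity)
        _ = 2 ^ m * (C * w ^ (m - 1) * s + C * H ^ m * ρ ^ γ) := by
            rw [← Finset.sum_mul]
            congr 1
            have := Nat.sum_range_choose m
            exact_mod_cast this
    rw [hsum, abs_of_pos hD0] at hle
    have : 2 ^ m * (C * w ^ (m - 1) * s + C * H ^ m * ρ ^ γ) ≤ D / 4 + D / 4 := by
      rw [mul_add]; exact add_le_add hA hB
    linarith
  have hfin := volume_segs_ge hcont (pow_nonneg hs0.le m) claim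
  rw [hsegs] at hfin
  refine le_trans (le_of_eq ?_) hfin
  congr 1
  -- computation of the constant
  have hw1 : w = (c1 ^ (1 - α))⁻¹ * H ^ (1 + m * (1 - α) / γ) := by
    rw [hw, hρ, Real.mul_rpow hc10.le (by positivity), ← Real.rpow_mul hH0.le,
      Real.rpow_add hH0, Real.rpow_one, ← Real.rpow_neg hc10.le]
    have e1 : -(m / γ) * (α - 1) = m * (1 - α) / γ := by ring
    have e2 : -(1 - α) = α - 1 := by ring
    rw [e1, e2]
    ring
  have hs1 : s ^ m = c2 ^ m * (w ^ (m * (m - 1)))⁻¹ := by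
    rw [hs, mul_pow, inv_pow, ← pow_mul, mul_comm (m - 1) m]
  have hk : (H ^ (1 + m * (1 - α) / γ)) ^ (m * (m - 1)) = H ^ (kap m α) := by
    rw [← Real.rpow_natCast, ← Real.rpow_mul hH0.le]
    congr 1
    rw [kap, ← hγ]
    have : ((m * (m - 1) : ℕ) : ℝ) = m * (m - 1) := by
      push_cast [Nat.cast_sub (by omega : 1 ≤ m)]
      ring
    rw [this]; ring
  rw [hs1, hw1, mul_pow, hk, mul_inv, inv_pow, inv_inv, Real.rpow_neg hH0.le]
  ring

end Pool.Agent.H749R2.Kak
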