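import Pool.Agent.H749R2.Kak.Defs

/-!
# K11: from the cube to Kakeya sets in Euclidean space
-/

set_option autoImplicit false
open MeasureTheory Set Filter Topology
open scoped BigOperators

namespace Pool.Agent.H749R2.Kak
namespace K11

/-- coordinates -/
noncomputable def emb (m : ℕ) (q : E m × ℝ) : EuclideanSpace ℝ (Fin (m + 1)) :=
  WithLp.toLp 2 (Fin.cons q.2 q.1 : Fin (m + 1) → ℝ)

/-- `emb` as a measurable equivalence -/
noncomputable def embE (m : ℕ) : E m × ℝ ≃ᵐ EuclideanSpace ℝ (Fin (m + 1)) :=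
  (MeasurableEquiv.prodComm).trans
    ((MeasurableEquiv.piFinSuccAbove (fun _ : Fin (m + 1) => ℝ) 0).symm.trans
      (MeasurableEquiv.toLp 2 (Fin (m + 1) → ℝ)))

theorem embE_apply (m : ℕ) (q : E m × ℝ) : embE m q = emb m q := by
  simp only [embE, emb, MeasurableEquiv.trans_apply, MeasurableEquiv.coe_toLp]
  congr 1
  funext i
  refine Fin.cases ?_ (fun j => ?_) i
  · rfl
  · rfl

theorem measurePreserving_embE (m : ℕ) : MeasurePreserving (embE m) volume volume := by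
  have h1 : MeasurePreserving (MeasurableEquiv.prodComm : E m × ℝ ≃ᵐ ℝ × E m) volume volume :=
    Measure.measurePreserving_swap
  have h2 : MeasurePreserving (MeasurableEquiv.piFinSuccAbove (fun _ : Fin (m + 1) => ℝ) 0).symm
      (volume : Measure (ℝ × E m)) volume :=
    (volume_preserving_piFinSuccAbove (fun _ : Fin (m + 1) => ℝ) 0).symm
  have h3 : MeasurePreserving (MeasurableEquiv.toLp 2 (Fin (m + 1) → ℝ)) volume volume :=
    (EuclideanSpace.volume_preserving_symm_measurableEquiv_toLp (Fin (m + 1))).symm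
  exact h1.trans (h2.trans h3)

theorem volume_emb_image (m : ℕ) (S : Set (E m × ℝ)) : volume (emb m '' S) = volume S := by
  have h1 : emb m '' S = (embE m).symm ⁻¹' S := by
    rw [← MeasurableEquiv.image_eq_preimage_symm]
    refine image_congr fun q _ => (embE_apply m q).symm
  rw [h1]
  exact (measurePreserving_embE m).symm.measure_preimage_equiv S

/-- scaling of the two factors -/
theorem volume_scale (m : ℕ) (x y : ℝ) (hx : 0 ≤ x) (hy : 0 ≤ y) (S : Set (E m × ℝ)) (c : ℝ) :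
    volume ((fun q : E m × ℝ => ((x • q.1, c + y * q.2) : E m × ℝ)) '' S)
      = ENNReal.ofReal (x ^ m * y) * volume S := by
  have hhaar : (volume : Measure (E m × ℝ)).IsAddHaarMeasure := by
    rw [Measure.volume_eq_prod]
    infer_instance
  let f : (E m × ℝ) →ₗ[ℝ] (E m × ℝ) :=
    LinearMap.prodMap (x • LinearMap.id) (y • LinearMap.id)
  have hdet : LinearMap.det f = x ^ m * y := by
    simp only [f]
    rw [LinearMap.det_prodMap]
    simp [LinearMap.det_smul]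
  have h1 : (fun q : E m × ℝ => ((x • q.1, c + y * q.2) : E m × ℝ)) '' S
      = (fun q : E m × ℝ => ((0, c) : E m × ℝ) + q) '' (f '' S) := by
    rw [image_image]
    refine image_congr fun q _ => ?_
    simp [f]
  rw [h1, image_add_left, measure_preimage_add, Measure.addHaar_image_linearMap, hdet,
    abs_of_nonneg (by positivity)]

theorem emb_zero_apply (m : ℕ) (q : E m × ℝ) : emb m q 0 = q.2 := rfl

theorem emb_succ_apply (m : ℕ) (q : E m × ℝ) (i : Fin m) : emb m q i.succ = q.1 i := rfl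

theorem emb_sub (m : ℕ) (q q' : E m × ℝ) : emb m q - emb m q' = emb m (q - q') := by
  ext i
  refine Fin.cases ?_ (fun j => ?_) i <;> rfl

theorem norm_emb_zero_le (m : ℕ) (w : E m) : ‖emb m (w, 0)‖ ≤ m * ‖w‖ := by
  rw [EuclideanSpace.norm_eq, Fin.sum_univ_succ]
  simp only [emb_zero_apply, emb_succ_apply]
  refine Real.sqrt_le_iff.2 ⟨by positivity, ?_⟩
  rcases Nat.eq_zero_or_pos m with hm | hm
  · subst hm
    simp
  have h1 : ∑ i : Fin m, ‖w i‖ ^ 2 ≤ ∑ _i : Fin m, ‖w‖ ^ 2 :=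
    Finset.sum_le_sum fun i _ => by gcongr; exact norm_le_pi_norm w i
  have h2 : (1:ℝ) ≤ m := by exact_mod_cast hm
  simp only [Finset.sum_const, Finset.card_univ, Fintype.card_fin, nsmul_eq_mul] at h1
  have h3 : 0 ≤ ‖w‖ ^ 2 := by positivity
  have h4 : (m:ℝ) * ‖w‖ ^ 2 ≤ (m * ‖w‖) ^ 2 := by
    rw [mul_pow]
    have : (m:ℝ) ≤ m ^ 2 := by nlinarith
    gcongr
  simp only [norm_zero]
  nlinarith

/-- unnormalised direction -/
noncomputable def D {m : ℕ} (w : E m) : EuclideanSpace ℝ (Fin (m + 1)) := emb m (w, 1)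

/-- direction -/
noncomputable def dir {m : ℕ} (w : E m) : EuclideanSpace ℝ (Fin (m + 1)) := ‖D w‖⁻¹ • D w

theorem one_le_norm_D {m : ℕ} (w : E m) : 1 ≤ ‖D w‖ := by
  have h := PiLp.norm_apply_le (D w) 0
  simpa [D, emb_zero_apply] using h

theorem norm_dir {m : ℕ} (w : E m) : ‖dir w‖ = 1 := by
  have h := one_le_norm_D w
  rw [dir, norm_smul, norm_inv, norm_norm, inv_mul_cancel₀ (by linarith)]

theorem norm_D_sub_le {m : ℕ} (w w' : E m) : ‖D w - D w'‖ ≤ m * ‖w - w'‖ := by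
  rw [D, D, emb_sub]
  simpa using norm_emb_zero_le m (w - w')

theorem norm_D_zero {m : ℕ} : ‖D (0 : E m)‖ = 1 := by
  rw [D, EuclideanSpace.norm_eq, Fin.sum_univ_succ]
  simp [emb_zero_apply, emb_succ_apply]

theorem dir_zero {m : ℕ} : dir (0 : E m) = EuclideanSpace.single 0 1 := by
  rw [dir, norm_D_zero]
  ext i
  refine Fin.cases ?_ (fun j => ?_) i
  · simp [D, emb_zero_apply]
  · simp [D, emb_succ_apply]

theorem norm_D_le {m : ℕ} (w : E m) : ‖D w‖ ≤ 1 + m * ‖w‖ := by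
  have h1 := norm_D_sub_le w 0
  have h2 : ‖D w‖ - ‖D (0 : E m)‖ ≤ ‖D w - D (0 : E m)‖ := norm_sub_norm_le _ _
  rw [norm_D_zero] at h2
  rw [sub_zero] at h1
  linarith

theorem normalize_sub {F : Type*} [NormedAddCommGroup F] [NormedSpace ℝ F] (x y : F)
    (hx : 1 ≤ ‖x‖) (hy : 1 ≤ ‖y‖) : ‖‖x‖⁻¹ • x - ‖y‖⁻¹ • y‖ ≤ 2 * ‖x - y‖ := by
  have h3 : ‖x‖⁻¹ • x - ‖y‖⁻¹ • y = ‖x‖⁻¹ • (x - y) + (‖x‖⁻¹ - ‖y‖⁻¹) • y := by
    rw [smul_sub, sub_smul, sub_add_sub_cancel]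
  have h4 : |‖x‖⁻¹ - ‖y‖⁻¹| * ‖y‖ ≤ ‖x - y‖ := by
    have h5 : ‖x‖⁻¹ - ‖y‖⁻¹ = (‖y‖ - ‖x‖) * (‖x‖⁻¹ * ‖y‖⁻¹) := by
      field_simp
    have h6 : |‖y‖ - ‖x‖| ≤ ‖x - y‖ := by
      rw [abs_sub_comm]
      exact abs_norm_sub_norm_le _ _
    rw [h5, abs_mul, abs_of_nonneg (a := ‖x‖⁻¹ * ‖y‖⁻¹) (by positivity), mul_assoc, mul_assoc,
      inv_mul_cancel₀ (by linarith), mul_one]
    have h7 : ‖x‖⁻¹ ≤ 1 := inv_le_one_of_one_le₀ hx
    have h8 : 0 ≤ |‖y‖ - ‖x‖| := abs_nonneg _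
    calc |‖y‖ - ‖x‖| * ‖x‖⁻¹ ≤ |‖y‖ - ‖x‖| * 1 := by gcongr
      _ ≤ _ := by linarith
  calc ‖‖x‖⁻¹ • x - ‖y‖⁻¹ • y‖ ≤ ‖‖x‖⁻¹ • (x - y)‖ + ‖(‖x‖⁻¹ - ‖y‖⁻¹) • y‖ := by
        rw [h3]; exact norm_add_le _ _
    _ = ‖x‖⁻¹ * ‖x - y‖ + |‖x‖⁻¹ - ‖y‖⁻¹| * ‖y‖ := by
        rw [norm_smul, norm_smul, norm_inv, norm_norm, Real.norm_eq_abs]
    _ ≤ 1 * ‖x - y‖ + ‖x - y‖ := by
        gcongr
        exact inv_le_one_of_one_le₀ hx
    _ = 2 * ‖x - y‖ := by ring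

theorem norm_dir_sub_le {m : ℕ} (w w' : E m) : ‖dir w - dir w'‖ ≤ 2 * m * ‖w - w'‖ := by
  have h1 := normalize_sub _ _ (one_le_norm_D w) (one_le_norm_D w')
  have h2 := norm_D_sub_le w w'
  rw [dir, dir]
  linarith

/-- the horizontal part of `x` -/
def tl {m : ℕ} (x : EuclideanSpace ℝ (Fin (m + 1))) : E m := fun i => x i.succ

theorem norm_tl_sub_le {m : ℕ} (x y : EuclideanSpace ℝ (Fin (m + 1))) :
    ‖tl x - tl y‖ ≤ ‖x - y‖ := by
  refine (pi_norm_le_iff_of_nonneg (norm_nonneg _)).2 fun i => ?_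
  have h := PiLp.norm_apply_le (x - y) i.succ
  simpa [tl] using h

theorem abs_zero_sub_le {m : ℕ} (x y : EuclideanSpace ℝ (Fin (m + 1))) :
    |x 0 - y 0| ≤ ‖x - y‖ := by
  have h := PiLp.norm_apply_le (x - y) 0
  simpa [Real.norm_eq_abs] using h

/-- the horizontal position at the reference height -/
noncomputable def A {m : ℕ} (p : EuclideanSpace ℝ (Fin (m + 1)) → EuclideanSpace ℝ (Fin (m + 1)))
    (w : E m) : E m :=
  tl (p (dir w)) + (p (dir (0 : E m)) 0 - p (dir w) 0) • w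

theorem emb_eq {m : ℕ} (p : EuclideanSpace ℝ (Fin (m + 1)) → EuclideanSpace ℝ (Fin (m + 1)))
    (w : E m) (t : ℝ) :
    emb m (A p w + t • w, p (dir (0 : E m)) 0 + t)
      = p (dir w) + ((p (dir (0 : E m)) 0 + t - p (dir w) 0) * ‖D w‖) • dir w := by
  have h1 := one_le_norm_D w
  have h2 : ((p (dir (0 : E m)) 0 + t - p (dir w) 0) * ‖D w‖) • dir w
      = (p (dir (0 : E m)) 0 + t - p (dir w) 0) • D w := by
    rw [show (dir w : EuclideanSpace ℝ (Fin (m + 1))) = ‖D w‖⁻¹ • D w from rfl, smul_smul, mul_assoc,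
      mul_inv_cancel₀ (by linarith), mul_one]
  rw [h2]
  ext i
  refine Fin.cases ?_ (fun j => ?_) i
  · simp only [emb_zero_apply, PiLp.add_apply, PiLp.smul_apply, D, smul_eq_mul]
    ring
  · simp only [emb_succ_apply, PiLp.add_apply, PiLp.smul_apply, D, smul_eq_mul, A, tl,
      Pi.add_apply, Pi.smul_apply]
    ring

/-- Hoelder estimate for `A` on a small cube -/
theorem A_holder {m : ℕ} {α H δ ε : ℝ} (hα : 0 < α) (hα1 : α ≤ 1) (hH : 0 ≤ H) (hε : 0 < ε)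
    (hε1 : ε ≤ 1) (hδ : H * (2 * m * ε) ^ α ≤ δ) (hδ0 : 0 ≤ δ)
    {p : EuclideanSpace ℝ (Fin (m + 1)) → EuclideanSpace ℝ (Fin (m + 1))}
    (hp : ∀ w w' : E m, ‖w‖ ≤ ε → ‖w'‖ ≤ ε → ‖p (dir w) - p (dir w')‖ ≤ H * ‖dir w - dir w'‖ ^ α)
    {x y : E m} (hx : ‖x‖ ≤ 1) (hy : ‖y‖ ≤ 1) (hxy : ‖x - y‖ ≤ 1) :
    ‖A p (ε • x) - A p (ε • y)‖ ≤ 3 * δ * ‖x - y‖ ^ α := by
  have hx' : ‖ε • x‖ ≤ ε := by
    rw [norm_smul, Real.norm_eq_abs, abs_of_pos hε]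
    nlinarith
  have hy' : ‖ε • y‖ ≤ ε := by
    rw [norm_smul, Real.norm_eq_abs, abs_of_pos hε]
    nlinarith
  have h00 : ‖(0 : E m)‖ ≤ ε := by rw [norm_zero]; exact hε.le
  have hd : ‖dir (ε • x) - dir (ε • y)‖ ≤ 2 * m * ε * ‖x - y‖ := by
    refine (norm_dir_sub_le _ _).trans (le_of_eq ?_)
    rw [← smul_sub, norm_smul, Real.norm_eq_abs, abs_of_pos hε]
    ring
  have h1 : ‖p (dir (ε • x)) - p (dir (ε • y))‖ ≤ δ * ‖x - y‖ ^ α := by
    refine (hp _ _ hx' hy').trans ?_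
    calc H * ‖dir (ε • x) - dir (ε • y)‖ ^ α ≤ H * (2 * m * ε * ‖x - y‖) ^ α := by gcongr
      _ = H * (2 * m * ε) ^ α * ‖x - y‖ ^ α := by
          rw [Real.mul_rpow (by positivity) (by positivity)]; ring
      _ ≤ δ * ‖x - y‖ ^ α := by gcongr
  have h2 : ‖p (dir (0 : E m)) - p (dir (ε • y))‖ ≤ δ := by
    refine (hp _ _ h00 hy').trans ?_
    have hd2 : ‖dir (0 : E m) - dir (ε • y)‖ ≤ 2 * m * ε := by
      refine (norm_dir_sub_le _ _).trans ?_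
      rw [zero_sub, norm_neg]
      gcongr
    calc H * ‖dir (0 : E m) - dir (ε • y)‖ ^ α ≤ H * (2 * m * ε) ^ α := by gcongr
      _ ≤ δ := hδ
  have h3 : A p (ε • x) - A p (ε • y) = (tl (p (dir (ε • x))) - tl (p (dir (ε • y))))
      + (p (dir (ε • y)) 0 - p (dir (ε • x)) 0) • (ε • x)
      + (p (dir (0 : E m)) 0 - p (dir (ε • y)) 0) • (ε • (x - y)) := by
    funext i
    simp only [A, Pi.sub_apply, Pi.add_apply, Pi.smul_apply, smul_eq_mul]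
    ring
  have h4 : ‖x - y‖ ≤ ‖x - y‖ ^ α := by
    rcases eq_or_lt_of_le (norm_nonneg (x - y)) with h | h
    · rw [← h]; exact Real.rpow_nonneg le_rfl _
    · calc ‖x - y‖ = ‖x - y‖ ^ (1:ℝ) := (Real.rpow_one _).symm
        _ ≤ ‖x - y‖ ^ α := Real.rpow_le_rpow_of_exponent_ge h hxy hα1
  have h5 : 0 ≤ ‖x - y‖ ^ α := by positivity
  rw [h3]
  calc _ ≤ ‖tl (p (dir (ε • x))) - tl (p (dir (ε • y)))‖
        + ‖(p (dir (ε • y)) 0 - p (dir (ε • x)) 0) • (ε • x)‖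
        + ‖(p (dir (0 : E m)) 0 - p (dir (ε • y)) 0) • (ε • (x - y))‖ := norm_add₃_le
    _ ≤ δ * ‖x - y‖ ^ α + δ * ‖x - y‖ ^ α * 1 + δ * ‖x - y‖ ^ α := by
        gcongr
        · exact (norm_tl_sub_le _ _).trans h1
        · rw [norm_smul]
          gcongr
          · rw [Real.norm_eq_abs, abs_sub_comm]
            exact (abs_zero_sub_le _ _).trans h1
          · exact hx'.trans hε1
        · rw [norm_smul, norm_smul, Real.norm_eq_abs, Real.norm_eq_abs, abs_of_pos hε]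
          calc _ ≤ δ * (1 * ‖x - y‖ ^ α) := by
                gcongr
                exact (abs_zero_sub_le _ _).trans h2
            _ = _ := by ring
    _ = 3 * δ * ‖x - y‖ ^ α := by ring

/-- the slab part of the segments -/
theorem volume_ge {m : ℕ} {α H ε ℓ : ℝ} (hα : 0 < α) (hα1 : α ≤ 1) (hH : 0 ≤ H) (hε : 0 < ε)
    (hε1 : m * ε ≤ 1) (hm : 1 ≤ m) (hℓ : 0 < ℓ) (hδ : H * (2 * m * ε) ^ α ≤ ℓ / 4)
    {p : EuclideanSpace ℝ (Fin (m + 1)) → EuclideanSpace ℝ (Fin (m + 1))}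
    (hp : ∀ w w' : E m, ‖w‖ ≤ ε → ‖w'‖ ≤ ε → ‖p (dir w) - p (dir w')‖ ≤ H * ‖dir w - dir w'‖ ^ α)
    {K : Set (EuclideanSpace ℝ (Fin (m + 1)))}
    (hK : ∀ w : E m, ‖w‖ ≤ ε → ∀ s : ℝ, |s| ≤ ℓ → p (dir w) + s • dir w ∈ K) :
    ∃ a : E m → E m, (∀ x ∈ cube m, ∀ y ∈ cube m, ‖a x - a y‖ ≤ 3 / ε * ‖x - y‖ ^ α) ∧
      ENNReal.ofReal ((ε * ℓ / 4) ^ m * (ℓ / 4)) * volume (segs a) ≤ volume K := by
  have hm1 : (1:ℝ) ≤ m := by exact_mod_cast hm
  have hεle : ε ≤ 1 := by nlinarith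
  have hcn : ∀ x ∈ cube m, ‖x‖ ≤ 1 := by
    intro x hx
    refine (pi_norm_le_iff_of_nonneg zero_le_one).2 fun i => ?_
    rw [Real.norm_eq_abs, abs_le]
    have h1 := hx.1 i
    have h2 := hx.2 i
    simp only [Pi.zero_apply, Pi.one_apply] at h1 h2
    constructor <;> linarith
  have hcn2 : ∀ x ∈ cube m, ∀ y ∈ cube m, ‖x - y‖ ≤ 1 := by
    intro x hx y hy
    refine (pi_norm_le_iff_of_nonneg zero_le_one).2 fun i => ?_
    rw [Real.norm_eq_abs, abs_le]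
    have h1 := hx.1 i
    have h2 := hx.2 i
    have h3 := hy.1 i
    have h4 := hy.2 i
    simp only [Pi.zero_apply, Pi.one_apply, Pi.sub_apply] at h1 h2 h3 h4 ⊢
    constructor <;> linarith
  refine ⟨fun v => (4 / (ε * ℓ)) • A p (ε • v), ?_, ?_⟩
  · intro x hx y hy
    have h1 := A_holder hα hα1 hH hε hεle hδ (by positivity) hp (hcn x hx) (hcn y hy)
      (hcn2 x hx y hy)
    rw [← smul_sub, norm_smul, Real.norm_eq_abs, abs_of_pos (by positivity)]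
    calc 4 / (ε * ℓ) * ‖A p (ε • x) - A p (ε • y)‖
        ≤ 4 / (ε * ℓ) * (3 * (ℓ / 4) * ‖x - y‖ ^ α) := by gcongr
      _ = 3 / ε * ‖x - y‖ ^ α := by field_simp
  · have h1 := volume_scale m (ε * ℓ / 4) (ℓ / 4) (by positivity) (by positivity)
      (segs fun v => (4 / (ε * ℓ)) • A p (ε • v)) (p (dir (0 : E m)) 0)
    rw [← h1, ← volume_emb_image]
    refine measure_mono ?_
    rintro _ ⟨_, ⟨⟨y, τ⟩, ⟨hτ, v, hv, hy⟩, rfl⟩, rfl⟩
    simp only at hτ hy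
    have hw : ‖ε • v‖ ≤ ε := by
      rw [norm_smul, Real.norm_eq_abs, abs_of_pos hε]
      have := hcn v hv
      nlinarith
    have h00 : ‖(0 : E m)‖ ≤ ε := by rw [norm_zero]; exact hε.le
    have h2 : ((ε * ℓ / 4) • y, p (dir (0 : E m)) 0 + ℓ / 4 * τ)
        = (A p (ε • v) + (ℓ / 4 * τ) • (ε • v), p (dir (0 : E m)) 0 + ℓ / 4 * τ) := by
      congr 1
      rw [hy]
      funext i
      simp only [Pi.add_apply, Pi.smul_apply, smul_eq_mul]
      field_simp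
    simp only
    rw [h2, emb_eq]
    refine hK _ hw _ ?_
    have h3 : |p (dir (0 : E m)) 0 - p (dir (ε • v)) 0| ≤ ℓ / 4 := by
      refine (abs_zero_sub_le _ _).trans ((hp _ _ h00 hw).trans (le_trans ?_ hδ))
      have hd2 : ‖dir (0 : E m) - dir (ε • v)‖ ≤ 2 * m * ε := by
        refine (norm_dir_sub_le _ _).trans ?_
        rw [zero_sub, norm_neg]
        gcongr
      gcongr
    have h4 : ‖D (ε • v)‖ ≤ 2 := by
      have := norm_D_le (ε • v)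
      nlinarith
    have h5 : |p (dir (0 : E m)) 0 + ℓ / 4 * τ - p (dir (ε • v)) 0| ≤ ℓ / 2 := by
      have h6 : 0 ≤ ℓ / 4 * τ := by have := hτ.1; positivity
      have h7 : ℓ / 4 * τ ≤ ℓ / 4 := by
        have := hτ.2
        nlinarith
      rw [abs_le] at h3 ⊢
      constructor <;> linarith [h3.1, h3.2]
    rw [abs_mul, abs_norm]
    calc _ ≤ ℓ / 2 * 2 := by gcongr
      _ = ℓ := by ring

/-- The theorem for directions near the first coordinate axis, from the theorem on the cube. -/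
theorem near_axis {m : ℕ} (hm : 1 ≤ m) {α : ℝ} (hα : 0 < α) (hα1 : α ≤ 1) {c κ : ℝ} (hc : 0 < c)
    (hcube : ∀ {H : ℝ}, 1 ≤ H → ∀ a : E m → E m,
      (∀ x ∈ cube m, ∀ y ∈ cube m, ‖a x - a y‖ ≤ H * ‖x - y‖ ^ α) →
      ENNReal.ofReal (c * H ^ (-κ)) ≤ volume (segs a)) {r ℓ : ℝ} (hr : 0 < r) (hℓ : 0 < ℓ) :
    ∃ c' : ℝ, 0 < c' ∧ ∀ H : ℝ, 1 ≤ H → ∀ (K : Set (EuclideanSpace ℝ (Fin (m + 1))))
      (p : EuclideanSpace ℝ (Fin (m + 1)) → EuclideanSpace ℝ (Fin (m + 1))),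
      (∀ d d', ‖d‖ = 1 → ‖d'‖ = 1 → ‖d - EuclideanSpace.single 0 1‖ < r →
        ‖d' - EuclideanSpace.single 0 1‖ < r → ‖p d - p d'‖ ≤ H * ‖d - d'‖ ^ α) →
      (∀ d, ‖d‖ = 1 → ‖d - EuclideanSpace.single 0 1‖ < r → ∀ s : ℝ, |s| ≤ ℓ → p d + s • d ∈ K) →
      ENNReal.ofReal (c' * H ^ (-((m + κ) / α))) ≤ volume K := by
  have hm1 : (1:ℝ) ≤ m := by exact_mod_cast hm
  set ε₀ : ℝ := min (min (1 / m) (r / (4 * m))) (1 / (2 * m) * (ℓ / 4) ^ (1 / α)) with hε₀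
  have hε₀pos : 0 < ε₀ := by
    refine lt_min (lt_min (by positivity) (by positivity)) (by positivity)
  have e1 : ε₀ ≤ 1 / m := (min_le_left _ _).trans (min_le_left _ _)
  have e2 : ε₀ ≤ r / (4 * m) := (min_le_left _ _).trans (min_le_right _ _)
  have e3 : ε₀ ≤ 1 / (2 * m) * (ℓ / 4) ^ (1 / α) := min_le_right _ _
  refine ⟨(ℓ / 4) ^ m * (ℓ / 4) * (c * 3 ^ (-κ)) * ε₀ ^ (m + κ), by positivity,
    fun H hH K p hp hK => ?_⟩
  have hH0 : 0 < H := by linarith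
  set ε : ℝ := ε₀ * H ^ (-(1 / α)) with hε
  have hHle : H ^ (-(1 / α)) ≤ 1 := Real.rpow_le_one_of_one_le_of_nonpos hH (by
    rw [Left.neg_nonpos_iff]; positivity)
  have hεpos : 0 < ε := by positivity
  have hεε : ε ≤ ε₀ := by
    rw [hε]
    nlinarith
  have hmε : m * ε ≤ 1 := by
    calc m * ε ≤ m * (1 / m) := by gcongr; exact hεε.trans e1
      _ = 1 := by field_simp
  have hδ : H * (2 * m * ε) ^ α ≤ ℓ / 4 := by
    have h1 : (2 * m * ε) = (2 * m * ε₀) * H ^ (-(1 / α)) := by rw [hε]; ring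
    have h2 : (H ^ (-(1 / α))) ^ α = H⁻¹ := by
      rw [← Real.rpow_mul hH0.le, neg_mul, one_div, inv_mul_cancel₀ hα.ne', Real.rpow_neg_one]
    have h3 : 2 * m * ε₀ ≤ (ℓ / 4) ^ (1 / α) := by
      calc 2 * m * ε₀ ≤ 2 * m * (1 / (2 * m) * (ℓ / 4) ^ (1 / α)) := by gcongr
        _ = _ := by field_simp
    rw [h1, Real.mul_rpow (by positivity) (by positivity), h2]
    calc H * ((2 * m * ε₀) ^ α * H⁻¹) = (2 * m * ε₀) ^ α := by field_simp
      _ ≤ ((ℓ / 4) ^ (1 / α)) ^ α := by gcongr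
      _ = ℓ / 4 := by
          rw [← Real.rpow_mul (by positivity), one_div, inv_mul_cancel₀ hα.ne', Real.rpow_one]
  have hcap : ∀ w : E m, ‖w‖ ≤ ε → ‖dir w - EuclideanSpace.single 0 1‖ < r := by
    intro w hw
    rw [← dir_zero]
    have h1 := norm_dir_sub_le w 0
    rw [sub_zero] at h1
    calc ‖dir w - dir 0‖ ≤ 2 * m * ‖w‖ := h1
      _ ≤ 2 * m * (r / (4 * m)) := by
          gcongr
          exact hw.trans (hεε.trans e2)
      _ = r / 2 := by field_simp; ring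
      _ < r := by linarith
  obtain ⟨a, ha1, ha2⟩ := volume_ge hα hα1 hH0.le hεpos hmε hm hℓ hδ
    (fun w w' hw hw' => hp _ _ (norm_dir w) (norm_dir w') (hcap w hw) (hcap w' hw'))
    (fun w hw s hs => hK _ (norm_dir w) (hcap w hw) s hs)
  have hεle : ε ≤ 1 := by nlinarith
  have h3ε : 1 ≤ 3 / ε := by
    rw [le_div_iff₀ hεpos]
    linarith
  have h1 := hcube h3ε a ha1
  refine le_trans ?_ ((mul_le_mul_right h1 _).trans ha2)
  rw [← ENNReal.ofReal_mul (by positivity)]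
  refine ENNReal.ofReal_le_ofReal (le_of_eq ?_)
  have h4 : (3 / ε) ^ (-κ) = 3 ^ (-κ) * ε ^ κ := by
    rw [Real.div_rpow (by norm_num) hεpos.le, Real.rpow_neg hεpos.le, div_inv_eq_mul]
  have h5 : (ε * ℓ / 4) ^ m = ε ^ (m:ℝ) * (ℓ / 4) ^ m := by
    rw [Real.rpow_natCast, ← mul_pow]
    congr 1
    ring
  have h6 : ε₀ ^ ((m:ℝ) + κ) * H ^ (-((m + κ) / α)) = ε ^ ((m:ℝ) + κ) := by
    rw [hε, Real.mul_rpow hε₀pos.le (by positivity), ← Real.rpow_mul hH0.le]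
    congr 2
    ring
  have h7 : ε ^ ((m:ℝ) + κ) = ε ^ (m:ℝ) * ε ^ κ := Real.rpow_add hεpos _ _
  rw [h4, h5, mul_assoc, h6, h7]
  ring

/-- The theorem for directions in an arbitrary cap, from the theorem on the cube. -/
theorem in_cap {m : ℕ} (hm : 1 ≤ m) {α : ℝ} (hα : 0 < α) (hα1 : α ≤ 1) {c κ : ℝ} (hc : 0 < c)
    (hcube : ∀ {H : ℝ}, 1 ≤ H → ∀ a : E m → E m,
      (∀ x ∈ cube m, ∀ y ∈ cube m, ‖a x - a y‖ ≤ H * ‖x - y‖ ^ α) →
      ENNReal.ofReal (c * H ^ (-κ)) ≤ volume (segs a)) {r ℓ : ℝ} (hr : 0 < r) (hℓ : 0 < ℓ) :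
    ∃ c' : ℝ, 0 < c' ∧ ∀ H : ℝ, 1 ≤ H → ∀ d₀ : EuclideanSpace ℝ (Fin (m + 1)), ‖d₀‖ = 1 →
      ∀ (K : Set (EuclideanSpace ℝ (Fin (m + 1))))
      (p : EuclideanSpace ℝ (Fin (m + 1)) → EuclideanSpace ℝ (Fin (m + 1))),
      (∀ d d', ‖d‖ = 1 → ‖d'‖ = 1 → ‖d - d₀‖ < r → ‖d' - d₀‖ < r →
        ‖p d - p d'‖ ≤ H * ‖d - d'‖ ^ α) →
      (∀ d, ‖d‖ = 1 → ‖d - d₀‖ < r → ∀ s : ℝ, |s| ≤ ℓ → p d + s • d ∈ K) →
      ENNReal.ofReal (c' * H ^ (-((m + κ) / α))) ≤ volume K := by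
  obtain ⟨c', hc', h⟩ := near_axis hm hα hα1 hc hcube hr hℓ
  refine ⟨c', hc', fun H hH d₀ hd₀ K p hp hK => ?_⟩
  obtain ⟨R, hR⟩ : ∃ R : EuclideanSpace ℝ (Fin (m + 1)) ≃ₗᵢ[ℝ] EuclideanSpace ℝ (Fin (m + 1)),
      R (EuclideanSpace.single 0 1) = d₀ := by
    have h1 : ‖(EuclideanSpace.single 0 1 : EuclideanSpace ℝ (Fin (m + 1)))‖ = ‖d₀‖ := by
      rw [hd₀]; simp
    exact ⟨_, Submodule.reflection_sub h1⟩
  have h2 := h H hH (R ⁻¹' K) (fun d => R.symm (p (R d))) ?_ ?_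
  · rwa [R.measurePreserving.measure_preimage_emb R.toHomeomorph.measurableEmbedding] at h2
  · intro d d' hd hd' hr1 hr2
    rw [← map_sub, R.symm.norm_map]
    have h3 := hp (R d) (R d') (by rw [R.norm_map, hd]) (by rw [R.norm_map, hd'])
      (by rw [← hR, ← map_sub, R.norm_map]; exact hr1)
      (by rw [← hR, ← map_sub, R.norm_map]; exact hr2)
    rwa [← map_sub, R.norm_map] at h3
  · intro d hd hr1 s hs
    have h3 := hK (R d) (by rw [R.norm_map, hd])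
      (by rw [← hR, ← map_sub, R.norm_map]; exact hr1) s hs
    change R (R.symm (p (R d)) + s • d) ∈ K
    rw [map_add, R.apply_symm_apply, map_smul]
    exact h3

end K11
end Pool.Agent.H749R2.Kak
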