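import Pool.Agent.H749R2.Kak.Defs

set_option autoImplicit false
open MeasureTheory Set Filter Topology
open scoped BigOperators

namespace Pool.Agent.H749R2.Kak

/-- K3: divergence theorem on the unit cube. -/
theorem div_cube {m : ℕ} (hm : 1 ≤ m) {Y : Fin m → E m → ℝ}
    (hd : ∀ j v, DifferentiableAt ℝ (Y j) v)
    (hc : Continuous fun v => ∑ j, fderiv ℝ (Y j) v (e j)) {K : ℝ}
    (hK : ∀ j, ∀ v ∈ cube m, |Y j v| ≤ K) :
    |∫ v in cube m, ∑ j, fderiv ℝ (Y j) v (e j)| ≤ 2 * m * K := by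
  obtain ⟨n, rfl⟩ : ∃ n, m = n + 1 := ⟨m - 1, by omega⟩
  have h1 := integral_divergence_of_hasFDerivAt_off_countable' (n := n) (E := ℝ)
    (0 : Fin (n + 1) → ℝ) 1 (by intro i; simp) Y (fun j => fderiv ℝ (Y j)) ∅
    Set.countable_empty
    (fun i => fun v _ => ((hd i v).continuousAt).continuousWithinAt)
    (fun v _ i => (hd i v).hasFDerivAt)
    (hc.continuousOn.integrableOn_compact isCompact_Icc)
  have h2 : (∫ v in cube (n + 1), ∑ j, fderiv ℝ (Y j) v (e j)) =
      ∑ i : Fin (n + 1),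
        ((∫ x in Icc ((0 : Fin (n + 1) → ℝ) ∘ i.succAbove) ((1 : Fin (n + 1) → ℝ) ∘ i.succAbove),
          Y i (i.insertNth ((1 : Fin (n + 1) → ℝ) i) x)) -
        ∫ x in Icc ((0 : Fin (n + 1) → ℝ) ∘ i.succAbove) ((1 : Fin (n + 1) → ℝ) ∘ i.succAbove),
          Y i (i.insertNth ((0 : Fin (n + 1) → ℝ) i) x)) := h1
  rw [h2]
  have hvol : volume (Icc (0 : Fin n → ℝ) 1) = 1 := by
    rw [Real.volume_Icc_pi]
    simp
  have key : ∀ (i : Fin (n + 1)) (c : ℝ), 0 ≤ c → c ≤ 1 →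
      |∫ x in Icc ((0 : Fin (n + 1) → ℝ) ∘ i.succAbove) ((1 : Fin (n + 1) → ℝ) ∘ i.succAbove),
          Y i (i.insertNth c x)| ≤ K := by
    intro i c hc0 hc1
    have e0 : ((0 : Fin (n + 1) → ℝ) ∘ i.succAbove) = 0 := by ext; simp
    have e1 : ((1 : Fin (n + 1) → ℝ) ∘ i.succAbove) = 1 := by ext; simp
    rw [e0, e1]
    have h3 := norm_setIntegral_le_of_norm_le_const (μ := volume) (s := Icc (0 : Fin n → ℝ) 1)
      (f := fun x => Y i (i.insertNth c x)) (C := K) (by rw [hvol]; exact ENNReal.one_lt_top) ?_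
    · have : volume.real (Icc (0 : Fin n → ℝ) 1) = 1 := by
        rw [Measure.real, hvol]
        simp
      rw [this, mul_one] at h3
      exact h3
    · intro x hx
      rw [Real.norm_eq_abs]
      apply hK
      rw [cube]
      constructor
      · intro k
        refine Fin.succAboveCases i ?_ (fun l => ?_) k
        · simpa using hc0
        · simpa using hx.1 l
      · intro k
        refine Fin.succAboveCases i ?_ (fun l => ?_) k
        · simpa using hc1
        · simpa using hx.2 l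
  refine le_trans (Finset.abs_sum_le_sum_abs _ _) ?_
  have h4 : ∀ i ∈ (Finset.univ : Finset (Fin (n + 1))),
      |((∫ x in Icc ((0 : Fin (n + 1) → ℝ) ∘ i.succAbove) ((1 : Fin (n + 1) → ℝ) ∘ i.succAbove),
          Y i (i.insertNth ((1 : Fin (n + 1) → ℝ) i) x)) -
        ∫ x in Icc ((0 : Fin (n + 1) → ℝ) ∘ i.succAbove) ((1 : Fin (n + 1) → ℝ) ∘ i.succAbove),
          Y i (i.insertNth ((0 : Fin (n + 1) → ℝ) i) x))| ≤ 2 * K := by
    intro i _
    have a1 := key i 1 zero_le_one le_rfl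
    have a0 := key i 0 le_rfl zero_le_one
    have := abs_sub (∫ x in Icc ((0 : Fin (n + 1) → ℝ) ∘ i.succAbove)
      ((1 : Fin (n + 1) → ℝ) ∘ i.succAbove), Y i (i.insertNth ((1 : Fin (n + 1) → ℝ) i) x))
      (∫ x in Icc ((0 : Fin (n + 1) → ℝ) ∘ i.succAbove)
      ((1 : Fin (n + 1) → ℝ) ∘ i.succAbove), Y i (i.insertNth ((0 : Fin (n + 1) → ℝ) i) x))
    simp only [Pi.one_apply, Pi.zero_apply] at this ⊢
    linarith
  refine le_trans (Finset.sum_le_sum h4) ?_
  rw [Finset.sum_const, Finset.card_univ, Fintype.card_fin, nsmul_eq_mul]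
  exact le_of_eq (by ring)

end Pool.Agent.H749R2.Kak
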