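import Pool.Agent.H749R2.Kak.Defs

set_option autoImplicit false
open MeasureTheory Set Filter Topology
open scoped BigOperators

namespace Pool.Agent.H749R2.Kak

namespace K6aux

/-- the cube `[-1,1]^m` -/
def B (m : ℕ) : Set (E m) := Icc (-1) 1

theorem isCompact_B (m : ℕ) : IsCompact (B m) := isCompact_Icc

theorem measurableSet_B (m : ℕ) : MeasurableSet (B m) := measurableSet_Icc

theorem norm_le_of_mem_B {m : ℕ} {u : E m} (hu : u ∈ B m) : ‖u‖ ≤ 1 := by
  rw [pi_norm_le_iff_of_nonneg zero_le_one]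
  intro i
  rw [Real.norm_eq_abs, abs_le]
  exact ⟨hu.1 i, hu.2 i⟩

theorem volume_B (m : ℕ) : (volume (B m)).toReal = 2 ^ m := by
  unfold B
  rw [Real.volume_Icc_pi]
  simp only [Pi.one_apply, Pi.neg_apply]
  rw [Finset.prod_const, Finset.card_univ, Fintype.card_fin, ENNReal.toReal_pow,
    ENNReal.toReal_ofReal (by norm_num)]
  norm_num

theorem volume_B_real (m : ℕ) : volume.real (B m) = 2 ^ m := volume_B m

/-- the parameter set -/
def K (m : ℕ) (R : ℝ) : Set (E m × ℝ) := B m ×ˢ Icc 0 R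

theorem isCompact_K (m : ℕ) (R : ℝ) : IsCompact (K m R) := (isCompact_B m).prod isCompact_Icc

theorem measurableSet_K (m : ℕ) (R : ℝ) : MeasurableSet (K m R) :=
  (measurableSet_B m).prod measurableSet_Icc

/-- the unnormalised vector field -/
noncomputable def G {m : ℕ} (χ : E m → ℝ) (R : ℝ) (y : E m) : E m :=
  ∫ p in K m R, χ (y + p.2 • p.1) • p.1

/-- its derivative -/
noncomputable def DG {m : ℕ} (χ : E m → ℝ) (R : ℝ) (y : E m) : E m →L[ℝ] E m :=
  ∫ p in K m R, (fderiv ℝ χ (y + p.2 • p.1)).smulRight p.1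

theorem integrableOn_K {m : ℕ} {R : ℝ} {F : Type} [NormedAddCommGroup F] [NormedSpace ℝ F]
    {f : E m × ℝ → F} (hf : Continuous f) : IntegrableOn f (K m R) volume :=
  hf.continuousOn.integrableOn_compact (isCompact_K m R)

theorem hasFDerivAt_G {m : ℕ} {χ : E m → ℝ} (hχ : ContDiff ℝ 1 χ) (hc : HasCompactSupport χ)
    (R : ℝ) (y : E m) : HasFDerivAt (G χ R) (DG χ R y) y := by
  have hχc : Continuous χ := hχ.continuous
  have hdc : Continuous (fderiv ℝ χ) := hχ.continuous_fderiv (by norm_num)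
  obtain ⟨M, hM⟩ := hdc.bounded_above_of_compact_support (hc.fderiv (𝕜 := ℝ))
  have hsm : Continuous (fun q : (E m →L[ℝ] ℝ) × E m => q.1.smulRight q.2) :=
    (ContinuousLinearMap.smulRightL ℝ (E m) (E m)).continuous₂
  apply hasFDerivAt_integral_of_dominated_of_fderiv_le (s := univ) (bound := fun _ => M)
    (F' := fun y (p : E m × ℝ) => (fderiv ℝ χ (y + p.2 • p.1)).smulRight p.1)
  · exact univ_mem
  · filter_upwards with x
    apply Continuous.aestronglyMeasurable
    fun_prop
  · apply integrableOn_K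
    fun_prop
  · apply Continuous.aestronglyMeasurable
    exact hsm.comp ((hdc.comp (by fun_prop)).prodMk continuous_fst)
  · rw [ae_restrict_iff' (measurableSet_K m R)]
    filter_upwards with p hp x _
    rw [ContinuousLinearMap.norm_smulRight_apply]
    have h1 := norm_le_of_mem_B hp.1
    have h2 := hM (x + p.2 • p.1)
    calc ‖fderiv ℝ χ (x + p.2 • p.1)‖ * ‖p.1‖ ≤ M * 1 := by
          apply mul_le_mul h2 h1 (norm_nonneg _) ((norm_nonneg _).trans h2)
      _ = M := mul_one _
  · exact integrableOn_K continuous_const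
  · filter_upwards with p x _
    have h1 : HasFDerivAt χ (fderiv ℝ χ (x + p.2 • p.1)) (x + p.2 • p.1) :=
      ((hχ.differentiable (by norm_num)) _).hasFDerivAt
    have h2 : HasFDerivAt (fun x : E m => χ (x + p.2 • p.1)) (fderiv ℝ χ (x + p.2 • p.1)) x := by
      have h3 : HasFDerivAt (fun x : E m => x + p.2 • p.1) (ContinuousLinearMap.id ℝ (E m)) x :=
        (hasFDerivAt_id x).add_const _
      have h4 := h1.comp x h3
      rw [ContinuousLinearMap.comp_id] at h4
      exact h4
    exact h2.smul_const p.1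

theorem continuous_DG {m : ℕ} {χ : E m → ℝ} (hχ : ContDiff ℝ 1 χ) (R : ℝ) :
    Continuous (DG χ R) := by
  have hdc : Continuous (fderiv ℝ χ) := hχ.continuous_fderiv (by norm_num)
  have hsm : Continuous (fun q : (E m →L[ℝ] ℝ) × E m => q.1.smulRight q.2) :=
    (ContinuousLinearMap.smulRightL ℝ (E m) (E m)).continuous₂
  unfold DG
  apply continuous_parametric_integral_of_continuous
    (f := fun y (p : E m × ℝ) => (fderiv ℝ χ (y + p.2 • p.1)).smulRight p.1) _ (isCompact_K m R)
  exact hsm.comp ((hdc.comp (by fun_prop)).prodMk (by fun_prop))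

theorem contDiff_G {m : ℕ} {χ : E m → ℝ} (hχ : ContDiff ℝ 1 χ) (hc : HasCompactSupport χ)
    (R : ℝ) : ContDiff ℝ 1 (G χ R) := by
  rw [contDiff_one_iff_fderiv]
  refine ⟨fun y => (hasFDerivAt_G hχ hc R y).differentiableAt, ?_⟩
  have : fderiv ℝ (G χ R) = DG χ R := by
    ext1 y
    exact (hasFDerivAt_G hχ hc R y).fderiv
  rw [this]
  exact continuous_DG hχ R

/-- the trace functional -/
noncomputable def tr (m : ℕ) : (E m →L[ℝ] E m) →L[ℝ] ℝ :=
  ∑ i : Fin m, (ContinuousLinearMap.proj (R := ℝ) (φ := fun _ : Fin m => ℝ) i).comp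
    (ContinuousLinearMap.apply ℝ (E m) (e i))

theorem tr_apply {m : ℕ} (A : E m →L[ℝ] E m) : tr m A = ∑ i, A (e i) i := by
  unfold tr
  simp

theorem tr_smulRight {m : ℕ} (ℓ : E m →L[ℝ] ℝ) (u : E m) : tr m (ℓ.smulRight u) = ℓ u := by
  rw [tr_apply]
  simp only [ContinuousLinearMap.smulRight_apply, Pi.smul_apply, smul_eq_mul]
  have : u = ∑ i, u i • e i := by
    ext j
    simp [e, Finset.sum_apply, Pi.single_apply]
  conv_rhs => rw [this]
  rw [map_sum]
  simp only [map_smul, smul_eq_mul]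
  exact Finset.sum_congr rfl fun i _ => mul_comm _ _

theorem inner_int {m : ℕ} {χ : E m → ℝ} (hχ : ContDiff ℝ 1 χ) {R : ℝ} (hR : 0 ≤ R) (y u : E m) :
    ∫ r in Icc 0 R, fderiv ℝ χ (y + r • u) u = χ (y + R • u) - χ y := by
  have hdc : Continuous (fderiv ℝ χ) := hχ.continuous_fderiv (by norm_num)
  rw [integral_Icc_eq_integral_Ioc, ← intervalIntegral.integral_of_le hR]
  have h : ∀ r ∈ uIcc 0 R, HasDerivAt (fun r : ℝ => χ (y + r • u)) (fderiv ℝ χ (y + r • u) u) r := by
    intro r _
    have h1 : HasFDerivAt χ (fderiv ℝ χ (y + r • u)) (y + r • u) :=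
      ((hχ.differentiable (by norm_num)) _).hasFDerivAt
    have h2 : HasDerivAt (fun r : ℝ => y + r • u) u r := by
      have := ((hasDerivAt_id r).smul_const u).const_add y
      simpa using this
    exact h1.comp_hasDerivAt r h2
  have hcont : Continuous (fun r : ℝ => fderiv ℝ χ (y + r • u) u) :=
    (hdc.comp (by fun_prop)).clm_apply continuous_const
  rw [intervalIntegral.integral_eq_sub_of_hasDerivAt h (hcont.intervalIntegrable _ _)]
  simp

theorem tr_DG {m : ℕ} {χ : E m → ℝ} (hχ : ContDiff ℝ 1 χ) {R : ℝ} (hR : 0 ≤ R) (y : E m) :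
    tr m (DG χ R y) = ∫ u in B m, (χ (y + R • u) - χ y) := by
  have hdc : Continuous (fderiv ℝ χ) := hχ.continuous_fderiv (by norm_num)
  have hsm : Continuous (fun q : (E m →L[ℝ] ℝ) × E m => q.1.smulRight q.2) :=
    (ContinuousLinearMap.smulRightL ℝ (E m) (E m)).continuous₂
  unfold DG
  rw [← ContinuousLinearMap.integral_comp_comm]
  · simp only [tr_smulRight]
    have hcont : Continuous (fun p : E m × ℝ => fderiv ℝ χ (y + p.2 • p.1) p.1) :=
      (hdc.comp (by fun_prop)).clm_apply continuous_fst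
    have h1 := integrableOn_K (R := R) hcont
    unfold K at h1 ⊢
    rw [Measure.volume_eq_prod] at h1 ⊢
    rw [setIntegral_prod _ h1]
    apply setIntegral_congr_fun (measurableSet_B m)
    intro u _
    exact inner_int hχ hR y u
  · apply integrableOn_K
    exact hsm.comp ((hdc.comp (by fun_prop)).prodMk (by fun_prop))

/-- total mass -/
theorem integral_le {m : ℕ} {χ : E m → ℝ} (_hχ : Continuous χ) (_hc : HasCompactSupport χ)
    (h0 : ∀ y, 0 ≤ χ y) (h1 : ∀ y, χ y ≤ 1) {s : ℝ} (hs : 0 < s)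
    (hvol : volume (tsupport χ) ≤ ENNReal.ofReal (s ^ m)) : ∫ y, χ y ≤ s ^ m := by
  have e1 : ∫ y in tsupport χ, χ y = ∫ y, χ y :=
    setIntegral_eq_integral_of_forall_compl_eq_zero (fun x hx => image_eq_zero_of_notMem_tsupport hx)
  rw [← e1]
  have hfin : volume (tsupport χ) < ⊤ := lt_of_le_of_lt hvol ENNReal.ofReal_lt_top
  have h2 := norm_setIntegral_le_of_norm_le_const (f := χ) (C := 1) hfin
    (fun x _ => by rw [Real.norm_eq_abs, abs_of_nonneg (h0 x)]; exact h1 x)
  rw [one_mul] at h2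
  refine (le_abs_self _).trans (h2.trans ?_)
  rw [measureReal_def]
  exact ENNReal.toReal_le_of_le_ofReal (by positivity) hvol

theorem slice_le {m : ℕ} {χ : E m → ℝ} (hχ : Continuous χ) (hc : HasCompactSupport χ)
    (h0 : ∀ y, 0 ≤ χ y) (h1 : ∀ y, χ y ≤ 1) {s : ℝ} (hs : 0 < s)
    (hvol : volume (tsupport χ) ≤ ENNReal.ofReal (s ^ m)) (y : E m) {r : ℝ} (hr : 0 < r) :
    ∫ u in B m, χ (y + r • u) ≤ (s / r) ^ m := by
  have hint : Integrable χ volume := hχ.integrable_of_hasCompactSupport hc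
  have e1 : ∫ u, χ (y + r • u) = (r ^ m)⁻¹ * ∫ u, χ u := by
    have h2 := Measure.integral_comp_smul (μ := (volume : Measure (E m)))
      (fun u : E m => χ (y + u)) r
    rw [h2, integral_add_left_eq_self (fun u => χ u) y]
    simp only [Module.finrank_fintype_fun_eq_card, Fintype.card_fin, smul_eq_mul]
    rw [abs_of_pos (by positivity)]
  have hint2 : Integrable (fun u : E m => χ (y + r • u)) volume := by
    have := (hint.comp_add_left y).comp_smul hr.ne'
    exact this
  calc ∫ u in B m, χ (y + r • u) ≤ ∫ u, χ (y + r • u) :=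
        setIntegral_le_integral hint2 (Eventually.of_forall fun u => h0 _)
    _ = (r ^ m)⁻¹ * ∫ u, χ u := e1
    _ ≤ (r ^ m)⁻¹ * s ^ m := by
        have := integral_le hχ hc h0 h1 hs hvol
        gcongr
    _ = (s / r) ^ m := by rw [div_pow]; ring

theorem slice_le' {m : ℕ} {χ : E m → ℝ} (hχ : Continuous χ)
    (h0 : ∀ y, 0 ≤ χ y) (h1 : ∀ y, χ y ≤ 1) (y : E m) (r : ℝ) :
    ∫ u in B m, χ (y + r • u) ≤ 2 ^ m := by
  have h2 := norm_setIntegral_le_of_norm_le_const (μ := (volume : Measure (E m)))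
    (s := B m) (f := fun u => χ (y + r • u)) (C := 1)
    (isCompact_B m).measure_lt_top
    (fun x _ => by rw [Real.norm_eq_abs, abs_of_nonneg (h0 _)]; exact h1 _)
  rw [one_mul, volume_B_real] at h2
  exact (le_abs_self _).trans h2

theorem mass_K {m : ℕ} (hm : 2 ≤ m) {χ : E m → ℝ} (hχ : Continuous χ) (hc : HasCompactSupport χ)
    (h0 : ∀ y, 0 ≤ χ y) (h1 : ∀ y, χ y ≤ 1) {s : ℝ} (hs : 0 < s)
    (hvol : volume (tsupport χ) ≤ ENNReal.ofReal (s ^ m)) (y : E m) {R : ℝ} (hR : s ≤ R) :
    ∫ p in K m R, χ (y + p.2 • p.1) ≤ 2 ^ m * s + s := by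
  have hR0 : 0 ≤ R := hs.le.trans hR
  have hcont : Continuous (fun p : E m × ℝ => χ (y + p.2 • p.1)) := by fun_prop
  have hi := integrableOn_K (R := R) hcont
  unfold K at hi ⊢
  rw [Measure.volume_eq_prod] at hi ⊢
  rw [setIntegral_prod _ hi]
  unfold IntegrableOn at hi
  rw [← Measure.prod_restrict] at hi
  rw [integral_integral_swap hi]
  have hg : Continuous (fun r : ℝ => ∫ u in B m, χ (y + r • u)) := by
    apply continuous_parametric_integral_of_continuous
      (f := fun (r : ℝ) (u : E m) => χ (y + r • u)) _ (isCompact_B m)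
    simp only [Function.uncurry_def]
    fun_prop
  rw [integral_Icc_eq_integral_Ioc, ← intervalIntegral.integral_of_le hR0,
    ← intervalIntegral.integral_add_adjacent_intervals (b := s)
      (hg.intervalIntegrable _ _) (hg.intervalIntegrable _ _)]
  have hA : ∫ r in (0:ℝ)..s, ∫ u in B m, χ (y + r • u) ≤ 2 ^ m * s := by
    have := intervalIntegral.integral_mono_on (μ := volume) hs.le (hg.intervalIntegrable 0 s)
      (g := fun _ => (2:ℝ) ^ m) (by simp) (fun r _ => slice_le' hχ h0 h1 y r)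
    rw [intervalIntegral.integral_const, smul_eq_mul, sub_zero] at this
    linarith
  have hB : ∫ r in s..R, ∫ u in B m, χ (y + r • u) ≤ s := by
    have hne : ∀ r ∈ uIcc s R, r ≠ 0 := by
      intro r hr
      rw [uIcc_of_le hR] at hr
      linarith [hr.1]
    have hci : IntervalIntegrable (fun r : ℝ => s ^ 2 * (r ^ 2)⁻¹) volume s R := by
      apply ContinuousOn.intervalIntegrable
      apply continuousOn_const.mul
      apply ContinuousOn.inv₀ (by fun_prop)
      intro r hr
      exact pow_ne_zero _ (hne r hr)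
    have h2 := intervalIntegral.integral_mono_on (μ := volume) hR (hg.intervalIntegrable s R)
      (g := fun r => s ^ 2 * (r ^ 2)⁻¹) hci (by
        intro r hr
        have hr0 : 0 < r := lt_of_lt_of_le hs hr.1
        refine (slice_le hχ hc h0 h1 hs hvol y hr0).trans ?_
        have h3 : s / r ≤ 1 := by rw [div_le_one hr0]; exact hr.1
        calc (s / r) ^ m ≤ (s / r) ^ 2 := pow_le_pow_of_le_one (by positivity) h3 hm
          _ = s ^ 2 * (r ^ 2)⁻¹ := by rw [div_pow]; ring)
    refine h2.trans ?_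
    have h4 : ∀ r ∈ uIcc s R, HasDerivAt (fun r : ℝ => -(s ^ 2 * r⁻¹)) (s ^ 2 * (r ^ 2)⁻¹) r := by
      intro r hr
      have h5 := (((hasDerivAt_inv (hne r hr)).const_mul (s ^ 2))).neg
      refine h5.congr_deriv ?_
      ring
    rw [intervalIntegral.integral_eq_sub_of_hasDerivAt h4 hci]
    have h6 : s ^ 2 * s⁻¹ = s := by field_simp
    have h7 : 0 ≤ s ^ 2 * R⁻¹ := by positivity
    linarith
  linarith

end K6aux

open K6aux

/-- K6: a bounded vector field whose divergence is almost `χ`. -/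
theorem exists_field {m : ℕ} (hm : 2 ≤ m) {χ : E m → ℝ} (hχ : ContDiff ℝ 1 χ)
    (hc : HasCompactSupport χ) (h0 : ∀ y, 0 ≤ χ y) (h1 : ∀ y, χ y ≤ 1) {s : ℝ} (hs : 0 < s)
    (hvol : volume (tsupport χ) ≤ ENNReal.ofReal (s ^ m)) {η : ℝ} (hη : 0 < η) :
    ∃ F : E m → E m, ContDiff ℝ 1 F ∧ (∀ y, ‖F y‖ ≤ 2 * s) ∧
      ∀ y, |∑ i, fderiv ℝ F y (e i) i - χ y| ≤ η := by
  have hχc : Continuous χ := hχ.continuous
  set R : ℝ := s * (1 + 1 / η) with hRdef
  have hRs : s ≤ R := by
    rw [hRdef]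
    have : 0 < s * (1 / η) := by positivity
    nlinarith
  have hR0 : 0 < R := lt_of_lt_of_le hs hRs
  set c : ℝ := -(1 / 2 ^ m) with hcdef
  have h2m : (0:ℝ) < 2 ^ m := by positivity
  have h2m1 : (1:ℝ) ≤ 2 ^ m := one_le_pow₀ (by norm_num)
  refine ⟨fun y => c • G χ R y, (contDiff_G hχ hc R).const_smul c, ?_, ?_⟩
  · intro y
    rw [norm_smul]
    have hcn : ‖c‖ = 1 / 2 ^ m := by
      rw [hcdef, norm_neg, Real.norm_eq_abs, abs_of_pos (by positivity)]
    rw [hcn]
    have hG : ‖G χ R y‖ ≤ 2 ^ m * s + s := by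
      refine le_trans ?_ (mass_K hm hχc hc h0 h1 hs hvol y hRs)
      unfold G
      refine (norm_integral_le_integral_norm _).trans ?_
      apply setIntegral_mono_on
      · apply (integrableOn_K (R := R) (f := fun p : E m × ℝ => χ (y + p.2 • p.1) • p.1)
          (by fun_prop)).norm
      · exact integrableOn_K (by fun_prop)
      · exact measurableSet_K m R
      · intro p hp
        rw [norm_smul, Real.norm_eq_abs, abs_of_nonneg (h0 _)]
        have := norm_le_of_mem_B hp.1
        have h3 := h0 (y + p.2 • p.1)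
        calc χ (y + p.2 • p.1) * ‖p.1‖ ≤ χ (y + p.2 • p.1) * 1 := by gcongr
          _ = _ := mul_one _
    calc 1 / 2 ^ m * ‖G χ R y‖ ≤ 1 / 2 ^ m * (2 ^ m * s + s) := by gcongr
      _ = s + s / 2 ^ m := by field_simp
      _ ≤ s + s := by
          have : s / 2 ^ m ≤ s := div_le_self hs.le h2m1
          linarith
      _ = 2 * s := by ring
  · intro y
    have hfd : fderiv ℝ (fun y => c • G χ R y) y = c • DG χ R y :=
      ((hasFDerivAt_G hχ hc R y).const_smul c).fderiv
    rw [hfd]
    have e1 : ∑ i, (c • DG χ R y) (e i) i = c * tr m (DG χ R y) := by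
      rw [tr_apply, Finset.mul_sum]
      rfl
    rw [e1, tr_DG hχ hR0.le y]
    have e2 : ∫ u in B m, (χ (y + R • u) - χ y) = (∫ u in B m, χ (y + R • u)) - 2 ^ m * χ y := by
      rw [integral_sub]
      · rw [setIntegral_const, volume_B_real, smul_eq_mul]
      · exact (Continuous.continuousOn (by fun_prop)).integrableOn_compact (isCompact_B m)
      · exact (Continuous.continuousOn (by fun_prop)).integrableOn_compact (isCompact_B m)
    rw [e2]
    have e3 : c * ((∫ u in B m, χ (y + R • u)) - 2 ^ m * χ y) - χ y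
        = -(1 / 2 ^ m * ∫ u in B m, χ (y + R • u)) := by
      rw [hcdef]
      field_simp
      ring
    rw [e3, abs_neg]
    have hnn : 0 ≤ ∫ u in B m, χ (y + R • u) :=
      setIntegral_nonneg (measurableSet_B m) (fun u _ => h0 _)
    rw [abs_of_nonneg (by positivity)]
    have h3 : s / R ≤ 1 := by rw [div_le_one hR0]; exact hRs
    have h4 : s / R ≤ η := by
      rw [div_le_iff₀ hR0, hRdef]
      have : η * (s * (1 + 1 / η)) = s * η + s := by field_simp
      rw [this]
      have : 0 < s * η := by positivity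
      linarith
    calc 1 / 2 ^ m * ∫ u in B m, χ (y + R • u) ≤ 1 * (s / R) ^ m := by
          apply mul_le_mul _ (slice_le hχc hc h0 h1 hs hvol y hR0) hnn zero_le_one
          rw [div_le_one h2m]; exact h2m1
      _ = (s / R) ^ m := one_mul _
      _ ≤ (s / R) ^ 1 := pow_le_pow_of_le_one (by positivity) h3 (by omega)
      _ = s / R := pow_one _
      _ ≤ η := h4

end Pool.Agent.H749R2.Kak
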