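import Pool.Agent.H749R2.Kak.K1
import Pool.Agent.H749R2.Kak.K2
import Pool.Agent.H749R2.Kak.K3
import Pool.Agent.H749R2.Kak.K6

set_option autoImplicit false
open MeasureTheory Set Filter Topology
open scoped BigOperators

namespace Pool.Agent.H749R2.Kak


theorem K5.cont_Dr {m : ℕ} {φ : E m → E m} (hφ : ContDiff ℝ 2 φ) (j i : Fin m) :
    Continuous fun v => Dr φ v j i := by
  have h1 : Continuous (fderiv ℝ φ) := hφ.continuous_fderiv (by norm_num)
  have h2 : Continuous fun v => fderiv ℝ φ v (e j) := h1.clm_apply continuous_const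
  exact (continuous_apply i).comp h2

theorem K5.cont_jac {m : ℕ} {φ : E m → E m} (hφ : ContDiff ℝ 2 φ) :
    Continuous (jac φ) := by
  unfold jac
  apply Continuous.matrix_det
  apply continuous_matrix
  intro j i
  exact K5.cont_Dr hφ j i

theorem K5.cont_div {m : ℕ} {φ F : E m → E m} (hφ : Continuous φ) (hF : ContDiff ℝ 1 F) :
    Continuous fun v => ∑ i, fderiv ℝ F (φ v) (e i) i := by
  have h1 : Continuous (fderiv ℝ F) := hF.continuous_fderiv (by norm_num)
  apply continuous_finsetSum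
  intro i _
  have h2 : Continuous fun v => fderiv ℝ F (φ v) (e i) := (h1.comp hφ).clm_apply continuous_const
  exact (continuous_apply i).comp h2

/-- K5: if `χ` is approximately the divergence of a small vector field then `∫ χ(φ) jac φ` is
small. -/
theorem field_est {m : ℕ} (hm : 1 ≤ m) {φ : E m → E m} (hφ : ContDiff ℝ 2 φ)
    {F : E m → E m} (hF : ContDiff ℝ 1 F) {Λ σ : ℝ} (hD : ∀ v ∈ cube m, ∀ i j, |Dr φ v i j| ≤ Λ)
    (hσ : ∀ y, ‖F y‖ ≤ σ) :
    |∫ v in cube m, (∑ i, fderiv ℝ F (φ v) (e i) i) * jac φ v|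
      ≤ 2 * m * (m.factorial * Λ ^ (m - 1) * σ) := by
  have hG : ContDiff ℝ 1 (F ∘ φ) := hF.comp (hφ.of_le (by norm_num))
  have hp := fun v => piola hφ hG v
  have hcomp : ∀ v, ∀ j : Fin m, fderiv ℝ (F ∘ φ) v (e j) = fderiv ℝ F (φ v) (Dr φ v j) := by
    intro v j
    rw [fderiv_comp v (hF.differentiable (by norm_num) _) (hφ.differentiable (by norm_num) _)]
    rfl
  have key : ∀ v, ∑ j, fderiv ℝ (fun w => ((Dr φ w).updateRow j ((F ∘ φ) w)).det) v (e j) =
      (∑ i, fderiv ℝ F (φ v) (e i) i) * jac φ v := by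
    intro v
    rw [(hp v).2]
    have := sum_det_apply (Dr φ v) (fderiv ℝ F (φ v))
    unfold jac
    rw [← this]
    apply Finset.sum_congr rfl
    intro j _
    rw [hcomp v j]
  have hd := div_cube hm (Y := fun j w => ((Dr φ w).updateRow j ((F ∘ φ) w)).det)
    (K := m.factorial * Λ ^ (m - 1) * σ)
    (fun j v => (hp v).1 j)
    (by
      have : (fun v => ∑ j, fderiv ℝ (fun w => ((Dr φ w).updateRow j ((F ∘ φ) w)).det) v (e j)) =
          fun v => ∑ j, ((Dr φ v).updateRow j (fderiv ℝ (F ∘ φ) v (e j))).det := by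
        funext v
        exact (hp v).2
      rw [this]
      exact piola_cont hφ hG)
    (fun j v hv => abs_det_updateRow_le (hD v hv) (hσ _) j)
  rw [integral_congr_ae (Filter.Eventually.of_forall key)] at hd
  exact hd

/-- K5: consequence for a cut-off function of small support (uses `exists_field`). -/
theorem small_supp {m : ℕ} (hm : 2 ≤ m) {φ : E m → E m} (hφ : ContDiff ℝ 2 φ)
    {χ : E m → ℝ} (hχ : ContDiff ℝ 1 χ) (hc : HasCompactSupport χ) (h0 : ∀ y, 0 ≤ χ y)
    (h1 : ∀ y, χ y ≤ 1) {s : ℝ} (hs : 0 < s) (hvol : volume (tsupport χ) ≤ ENNReal.ofReal (s ^ m))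
    {Λ : ℝ} (hD : ∀ v ∈ cube m, ∀ i j, |Dr φ v i j| ≤ Λ) :
    |∫ v in cube m, χ (φ v) * jac φ v| ≤ 4 * m * (m.factorial * Λ ^ (m - 1) * s) := by
  have hcube : IsCompact (cube m) := isCompact_Icc
  have hcj := K5.cont_jac hφ
  set I := ∫ v in cube m, |jac φ v| with hI
  have hI0 : 0 ≤ I := integral_nonneg fun v => abs_nonneg _
  apply le_of_forall_pos_le_add
  intro ε hε
  set η := ε / (I + 1) with hη
  have hη0 : 0 < η := by positivity
  obtain ⟨F, hF, hFb, hFd⟩ := exists_field hm hχ hc h0 h1 hs hvol hη0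
  have h2 := field_est (by omega) hφ hF hD hFb
  have hcd := K5.cont_div hφ.continuous hF
  have hcχ : Continuous fun v => χ (φ v) := hχ.continuous.comp hφ.continuous
  have i1 : IntegrableOn (fun v => χ (φ v) * jac φ v) (cube m) :=
    (hcχ.mul hcj).continuousOn.integrableOn_compact hcube
  have i2 : IntegrableOn (fun v => (∑ i, fderiv ℝ F (φ v) (e i) i) * jac φ v) (cube m) :=
    (hcd.mul hcj).continuousOn.integrableOn_compact hcube
  have i3 : IntegrableOn (fun v => |jac φ v|) (cube m) :=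
    hcj.abs.continuousOn.integrableOn_compact hcube
  have e1 : (∫ v in cube m, χ (φ v) * jac φ v) -
      (∫ v in cube m, (∑ i, fderiv ℝ F (φ v) (e i) i) * jac φ v) =
      ∫ v in cube m, (χ (φ v) * jac φ v - (∑ i, fderiv ℝ F (φ v) (e i) i) * jac φ v) :=
    (integral_sub i1 i2).symm
  have h3 : |(∫ v in cube m, χ (φ v) * jac φ v) -
      (∫ v in cube m, (∑ i, fderiv ℝ F (φ v) (e i) i) * jac φ v)| ≤ η * I := by
    rw [e1, hI, ← integral_const_mul, ← Real.norm_eq_abs]
    apply norm_integral_le_of_norm_le (i3.const_mul η)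
    apply Filter.Eventually.of_forall
    intro v
    show ‖χ (φ v) * jac φ v - (∑ i, fderiv ℝ F (φ v) (e i) i) * jac φ v‖ ≤ η * |jac φ v|
    rw [← sub_mul, norm_mul, Real.norm_eq_abs, Real.norm_eq_abs, abs_sub_comm]
    exact mul_le_mul_of_nonneg_right (hFd (φ v)) (abs_nonneg _)
  have h4 : η * I ≤ ε := by
    rw [hη, div_mul_eq_mul_div, div_le_iff₀ (by positivity)]
    nlinarith
  have h5 : |∫ v in cube m, χ (φ v) * jac φ v| ≤
      |∫ v in cube m, (∑ i, fderiv ℝ F (φ v) (e i) i) * jac φ v| + η * I := by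
    have := abs_add_le (∫ v in cube m, (∑ i, fderiv ℝ F (φ v) (e i) i) * jac φ v)
      ((∫ v in cube m, χ (φ v) * jac φ v) -
      (∫ v in cube m, (∑ i, fderiv ℝ F (φ v) (e i) i) * jac φ v))
    rw [add_sub_cancel] at this
    linarith
  have h6 : 2 * (m : ℝ) * (m.factorial * Λ ^ (m - 1) * (2 * s)) =
      4 * m * (m.factorial * Λ ^ (m - 1) * s) := by ring
  linarith

end Pool.Agent.H749R2.Kak
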