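import Pool.Agent.H749R2.Kak.Defs

/-!
# Task K7: mollification of Hoelder maps
-/

set_option autoImplicit false
open MeasureTheory Set Filter Topology Metric ContinuousLinearMap
open scoped BigOperators Convolution ContDiff

namespace Pool.Agent.H749R2.Kak

namespace K7aux

/-- the bump function -/
noncomputable def bump (m : ℕ) : ContDiffBump (0 : E m) where
  rIn := 1 / 4
  rOut := 1 / 2
  rIn_pos := by norm_num
  rIn_lt_rOut := by norm_num

/-- the normalised bump function -/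
noncomputable def eta (m : ℕ) : E m → ℝ := (bump m).normed volume

theorem eta_cd (m : ℕ) : ContDiff ℝ 2 (eta m) := (bump m).contDiff_normed (n := 2)

theorem eta_nonneg (m : ℕ) (x : E m) : 0 ≤ eta m x := (bump m).nonneg_normed x

theorem eta_int (m : ℕ) : ∫ x, eta m x = 1 := (bump m).integral_normed

theorem eta_supp (m : ℕ) {x : E m} (hx : eta m x ≠ 0) : ‖x‖ < 1 / 2 := by
  have h : x ∈ Function.support (eta m) := hx
  unfold eta at h
  rw [ContDiffBump.support_normed_eq, mem_ball_zero_iff] at h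
  exact h

theorem eta_comp (m : ℕ) : HasCompactSupport (eta m) := (bump m).hasCompactSupport_normed

/-- the scaled kernel -/
noncomputable def kk (m : ℕ) (ρ : ℝ) (x : E m) : ℝ := (ρ ^ m)⁻¹ * eta m (ρ⁻¹ • x)

theorem kk_cd (m : ℕ) (ρ : ℝ) : ContDiff ℝ 2 (kk m ρ) := by
  unfold kk
  exact contDiff_const.mul ((eta_cd m).comp (contDiff_const_smul ρ⁻¹))

theorem kk_nonneg (m : ℕ) {ρ : ℝ} (hρ : 0 < ρ) (x : E m) : 0 ≤ kk m ρ x := by
  unfold kk
  have := eta_nonneg m (ρ⁻¹ • x)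
  positivity

theorem kk_zero (m : ℕ) {ρ : ℝ} (hρ : 0 < ρ) {x : E m} (hx : ρ / 2 ≤ ‖x‖) : kk m ρ x = 0 := by
  unfold kk
  rw [mul_eq_zero]
  right
  by_contra h
  have h1 := eta_supp m h
  rw [norm_smul, norm_inv, Real.norm_of_nonneg hρ.le, inv_mul_lt_iff₀ hρ] at h1
  linarith

theorem kk_comp (m : ℕ) {ρ : ℝ} (hρ : 0 < ρ) : HasCompactSupport (kk m ρ) := by
  apply HasCompactSupport.intro (isCompact_closedBall (0 : E m) (ρ / 2))
  intro x hx
  rw [mem_closedBall_zero_iff, not_le] at hx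
  exact kk_zero m hρ hx.le

theorem kk_int (m : ℕ) {ρ : ℝ} (hρ : 0 < ρ) : ∫ x, kk m ρ x = 1 := by
  unfold kk
  rw [integral_const_mul, Measure.integral_comp_smul, eta_int]
  have : Module.finrank ℝ (E m) = m := by simp [E]
  rw [this, abs_of_nonneg (by positivity), smul_eq_mul, mul_one, inv_pow, inv_inv,
    inv_mul_cancel₀ (by positivity)]

theorem kk_fderiv (m : ℕ) (ρ : ℝ) (x : E m) :
    fderiv ℝ (kk m ρ) x = (ρ ^ m)⁻¹ • (ρ⁻¹ • fderiv ℝ (eta m) (ρ⁻¹ • x)) := by
  have h1 : HasFDerivAt (eta m) (fderiv ℝ (eta m) (ρ⁻¹ • x)) (ρ⁻¹ • x) :=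
    ((eta_cd m).differentiable (by norm_num) _).hasFDerivAt
  have h2 : HasFDerivAt (fun y : E m => ρ⁻¹ • y) (ρ⁻¹ • ContinuousLinearMap.id ℝ (E m)) x :=
    (hasFDerivAt_id x).const_smul ρ⁻¹
  have h3 := (h1.comp x h2).const_mul ((ρ ^ m)⁻¹)
  have h4 : HasFDerivAt (kk m ρ) ((ρ ^ m)⁻¹ • ((fderiv ℝ (eta m) (ρ⁻¹ • x)).comp
      (ρ⁻¹ • ContinuousLinearMap.id ℝ (E m)))) x := h3
  rw [h4.fderiv]
  ext y
  simp

theorem kk_fderiv_int (m : ℕ) {ρ : ℝ} (hρ : 0 < ρ) :
    ∫ x, ‖fderiv ℝ (kk m ρ) x‖ = ρ⁻¹ * ∫ x, ‖fderiv ℝ (eta m) x‖ := by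
  have h1 : ∀ x : E m, ‖fderiv ℝ (kk m ρ) x‖ =
      ((ρ ^ m)⁻¹ * ρ⁻¹) * ‖fderiv ℝ (eta m) (ρ⁻¹ • x)‖ := by
    intro x
    rw [kk_fderiv, norm_smul, norm_smul, Real.norm_of_nonneg (by positivity),
      Real.norm_of_nonneg (by positivity), mul_assoc]
  simp_rw [h1]
  rw [integral_const_mul,
    Measure.integral_comp_smul volume (fun x : E m => ‖fderiv ℝ (eta m) x‖) ρ⁻¹]
  have : Module.finrank ℝ (E m) = m := by simp [E]
  rw [this, abs_of_nonneg (by positivity), smul_eq_mul, inv_pow, inv_inv]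
  field_simp

theorem hoelder_cont {m : ℕ} {a : E m → E m} {H α : ℝ} (hα : 0 < α)
    (ha : ∀ x y, ‖a x - a y‖ ≤ H * ‖x - y‖ ^ α) : Continuous a := by
  rw [continuous_iff_continuousAt]
  intro y
  rw [ContinuousAt, tendsto_iff_norm_sub_tendsto_zero]
  have h1 : Tendsto (fun x => H * ‖x - y‖ ^ α) (𝓝 y) (𝓝 0) := by
    have hc : Continuous fun x : E m => H * ‖x - y‖ ^ α :=
      continuous_const.mul ((continuous_id.sub continuous_const).norm.rpow_const
        fun _ => Or.inr hα.le)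
    have := hc.tendsto y
    simpa [Real.zero_rpow hα.ne'] using this
  exact squeeze_zero (fun _ => norm_nonneg _) (fun x => ha x y) h1

end K7aux

open K7aux

/-- K7: mollification of Hoelder maps. -/
theorem mollify (m : ℕ) : ∃ C : ℝ, 0 < C ∧ ∀ {α H ρ : ℝ}, 0 < α → α ≤ 1 → 0 ≤ H → 0 < ρ →
    ∀ a : E m → E m, (∀ x y, ‖a x - a y‖ ≤ H * ‖x - y‖ ^ α) →
    ∃ b : E m → E m, ContDiff ℝ 2 b ∧ (∀ x, ‖b x - a x‖ ≤ H * ρ ^ α) ∧
      ∀ x i j, |Dr b x i j| ≤ C * (H * ρ ^ (α - 1)) := by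
  have hI : 0 ≤ ∫ x, ‖fderiv ℝ (eta m) x‖ := integral_nonneg fun _ => norm_nonneg _
  refine ⟨1 + ∫ x, ‖fderiv ℝ (eta m) x‖, by linarith, ?_⟩
  intro α H ρ hα hα1 hH hρ a ha
  have hac : Continuous a := hoelder_cont hα ha
  set k := kk m ρ with hk
  have hkI : Integrable k := (kk_cd m ρ).continuous.integrable_of_hasCompactSupport (kk_comp m hρ)
  have hHρ : 0 ≤ H * ρ ^ α := by positivity
  have hball : ∀ x₀ : E m, ∀ x ∈ ball x₀ ρ, dist (a x) (a x₀) ≤ H * ρ ^ α := by
    intro x₀ x hx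
    rw [mem_ball, dist_eq_norm] at hx
    rw [dist_eq_norm]
    refine (ha x x₀).trans ?_
    apply mul_le_mul_of_nonneg_left _ hH
    exact Real.rpow_le_rpow (norm_nonneg _) hx.le hα.le
  have hsupp : Function.support k ⊆ ball (0 : E m) ρ := by
    intro x hx
    rw [mem_ball_zero_iff]
    by_contra h
    push Not at h
    exact hx (kk_zero m hρ (by linarith))
  refine ⟨k ⋆[lsmul ℝ ℝ, volume] a, ?_, ?_, ?_⟩
  · exact (kk_comp m hρ).contDiff_convolution_left (n := 2) (lsmul ℝ ℝ) (kk_cd m ρ)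
      hac.locallyIntegrable
  · intro x
    have := dist_convolution_le (μ := volume) hHρ hsupp (kk_nonneg m hρ) (kk_int m hρ)
      hac.aestronglyMeasurable (hball x)
    rwa [dist_eq_norm] at this
  · intro x i j
    set g : E m → E m := fun y => a y - a x with hg
    have hgc : Continuous g := hac.sub continuous_const
    have h1 : HasFDerivAt (k ⋆[lsmul ℝ ℝ, volume] g)
        ((fderiv ℝ k ⋆[(lsmul ℝ ℝ).precompL (E m), volume] g) x) x :=
      (kk_comp m hρ).hasFDerivAt_convolution_left (lsmul ℝ ℝ)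
        ((kk_cd m ρ).of_le (by norm_num)) hgc.locallyIntegrable x
    have h2 : (k ⋆[lsmul ℝ ℝ, volume] g) = fun y => (k ⋆[lsmul ℝ ℝ, volume] a) y - a x := by
      ext1 y
      have h3 : (k ⋆[lsmul ℝ ℝ, volume] g) y = ∫ t, (k t • a (y - t) - k t • a x) := by
        rw [convolution_def]
        congr 1
        ext1 t
        rw [lsmul_apply, hg]
        simp only [smul_sub]
      rw [h3, integral_sub]
      · rw [integral_smul_const, kk_int m hρ, one_smul]
        rfl
      · have hci : ConvolutionExists k a (lsmul ℝ ℝ) volume :=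
          (kk_comp m hρ).convolutionExists_left (lsmul ℝ ℝ) (kk_cd m ρ).continuous
            hac.locallyIntegrable
        exact hci y
      · exact hkI.smul_const _
    have h4 : HasFDerivAt (k ⋆[lsmul ℝ ℝ, volume] a)
        ((fderiv ℝ k ⋆[(lsmul ℝ ℝ).precompL (E m), volume] g) x) x := by
      rw [h2] at h1
      have := h1.add_const (a x)
      simpa using this
    have hkd : Continuous (fderiv ℝ k) := (kk_cd m ρ).continuous_fderiv (by norm_num)
    have hkdc : HasCompactSupport (fderiv ℝ k) := (kk_comp m hρ).fderiv (𝕜 := ℝ)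
    have hsupp' : Function.support (fderiv ℝ k) ⊆ ball (0 : E m) ρ := by
      refine (support_fderiv_subset ℝ).trans ?_
      have : tsupport k ⊆ closedBall (0 : E m) (ρ / 2) := by
        apply closure_minimal _ isClosed_closedBall
        intro y hy
        rw [mem_closedBall_zero_iff]
        by_contra h
        push Not at h
        exact hy (kk_zero m hρ h.le)
      exact this.trans (closedBall_subset_ball (by linarith))
    have h5 := dist_convolution_le' (μ := volume) ((lsmul ℝ ℝ).precompL (E m)) (x₀ := x)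
      (z₀ := (0 : E m)) (g := g) hHρ (hkd.integrable_of_hasCompactSupport hkdc) hsupp'
      hgc.aestronglyMeasurable (by
        intro y hy
        rw [hg, dist_zero_right, ← dist_eq_norm]
        exact hball x y hy)
    simp only [map_zero, integral_zero, dist_zero_right] at h5
    rw [kk_fderiv_int m hρ] at h5
    have h6 : ‖((lsmul ℝ ℝ : ℝ →L[ℝ] E m →L[ℝ] E m)).precompL (E m)‖ ≤ 1 :=
      (norm_precompL_le (E m) _).trans opNorm_lsmul_le
    have h7 : |Dr (k ⋆[lsmul ℝ ℝ, volume] a) x i j| ≤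
        ‖(fderiv ℝ k ⋆[(lsmul ℝ ℝ).precompL (E m), volume] g) x‖ := by
      unfold Dr
      rw [h4.fderiv, ← Real.norm_eq_abs]
      refine (norm_le_pi_norm _ j).trans ?_
      refine (le_opNorm _ _).trans ?_
      have : ‖(e i : E m)‖ ≤ 1 := by
        unfold e
        rw [Pi.norm_single]
        simp
      exact mul_le_of_le_one_right (norm_nonneg _) this
    refine h7.trans (h5.trans ?_)
    have h8 : ρ ^ (α - 1) = ρ⁻¹ * ρ ^ α := by
      rw [Real.rpow_sub_one hρ.ne', div_eq_inv_mul]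
    rw [h8]
    set I := ∫ x, ‖fderiv ℝ (eta m) x‖ with hIdef
    have hρ' : 0 ≤ ρ⁻¹ := by positivity
    calc ‖((lsmul ℝ ℝ : ℝ →L[ℝ] E m →L[ℝ] E m)).precompL (E m)‖ * (ρ⁻¹ * I) * (H * ρ ^ α)
        ≤ 1 * (ρ⁻¹ * I) * (H * ρ ^ α) := by
          apply mul_le_mul_of_nonneg_right _ hHρ
          exact mul_le_mul_of_nonneg_right h6 (by positivity)
      _ ≤ 1 * (ρ⁻¹ * (1 + I)) * (H * ρ ^ α) := by
          apply mul_le_mul_of_nonneg_right _ hHρ
          apply mul_le_mul_of_nonneg_left _ (by norm_num)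
          apply mul_le_mul_of_nonneg_left _ hρ'
          linarith
      _ = (1 + I) * (H * (ρ⁻¹ * ρ ^ α)) := by ring

end Pool.Agent.H749R2.Kak
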