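import Pool.Agent.H749R2.Kak.Defs

set_option autoImplicit false
open MeasureTheory Set Filter Topology
open scoped BigOperators

namespace Pool.Agent.H749R2.Kak

namespace K9aux

/-- smooth cut-off function -/
theorem cutoff {m : ℕ} {A U : Set (E m)} (hA : IsCompact A) (hU : IsOpen U) (hAU : A ⊆ U) :
    ∃ χ : E m → ℝ, ContDiff ℝ 1 χ ∧ HasCompactSupport χ ∧ (∀ y, 0 ≤ χ y) ∧ (∀ y, χ y ≤ 1) ∧
      tsupport χ ⊆ U ∧ ∃ δ : ℝ, 0 < δ ∧ ∀ y ∈ Metric.thickening δ A, χ y = 1 := by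
  obtain ⟨V, hV, hAV, hVU, hVc⟩ := exists_open_between_and_isCompact_closure hA hU hAU
  obtain ⟨f, h0, h1, h2⟩ := exists_contMDiffMap_zero_one_nhds_of_isClosed
    (modelWithCornersSelf ℝ (E m)) (n := 1) (s := Vᶜ) (t := A) hV.isClosed_compl hA.isClosed
    (disjoint_compl_left_iff_subset.2 hAV)
  have hsupp : Function.support (f : E m → ℝ) ⊆ V := by
    intro y hy
    by_contra hyV
    apply hy
    exact (h0.filter_mono (nhds_le_nhdsSet (show y ∈ Vᶜ from hyV))).self_of_nhds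
  have hts : tsupport (f : E m → ℝ) ⊆ closure V := closure_mono hsupp
  refine ⟨f, f.contMDiff.contDiff, ?_, fun y => (h2 y).1, fun y => (h2 y).2, hts.trans hVU, ?_⟩
  · exact hVc.of_isClosed_subset (isClosed_tsupport _) hts
  · rw [eventually_nhdsSet_iff_exists] at h1
    obtain ⟨W, hW, hAW, hW1⟩ := h1
    obtain ⟨δ, hδ, hδW⟩ := hA.exists_thickening_subset_open hW hAW
    exact ⟨δ, hδ, fun y hy => hW1 y (hδW hy)⟩

theorem Dr_add_smul_id {m : ℕ} {b : E m → E m} (hb : ContDiff ℝ 2 b) (t : ℝ) (v : E m)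
    (i j : Fin m) : Dr (fun w => b w + t • w) v i j = Dr b v i j + t * (e i : E m) j := by
  have hd : DifferentiableAt ℝ b v := (hb.differentiable (by norm_num)) v
  have h : HasFDerivAt (fun w => b w + t • w) (fderiv ℝ b v + t • ContinuousLinearMap.id ℝ (E m)) v :=
    hd.hasFDerivAt.add ((hasFDerivAt_id v).const_smul t)
  unfold Dr
  rw [h.fderiv]
  simp

theorem Dr_add_smul {m : ℕ} {φ ψ : E m → E m} (hφ : ContDiff ℝ 2 φ) (hψ : ContDiff ℝ 2 ψ) (s : ℝ)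
    (v : E m) (i j : Fin m) :
    Dr (fun w => φ w + s • ψ w) v i j = Dr φ v i j + s * Dr ψ v i j := by
  have hd : DifferentiableAt ℝ φ v := (hφ.differentiable (by norm_num)) v
  have hd' : DifferentiableAt ℝ ψ v := (hψ.differentiable (by norm_num)) v
  have h : HasFDerivAt (fun w => φ w + s • ψ w) (fderiv ℝ φ v + s • fderiv ℝ ψ v) v :=
    hd.hasFDerivAt.add (hd'.hasFDerivAt.const_smul s)
  unfold Dr
  rw [h.fderiv]
  simp

theorem Dr_sub {m : ℕ} {φ ψ : E m → E m} (hφ : ContDiff ℝ 2 φ) (hψ : ContDiff ℝ 2 ψ)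
    (v : E m) (i j : Fin m) :
    Dr (fun w => φ w - ψ w) v i j = Dr φ v i j - Dr ψ v i j := by
  have hd : DifferentiableAt ℝ φ v := (hφ.differentiable (by norm_num)) v
  have hd' : DifferentiableAt ℝ ψ v := (hψ.differentiable (by norm_num)) v
  have h : HasFDerivAt (fun w => φ w - ψ w) (fderiv ℝ φ v - fderiv ℝ ψ v) v :=
    hd.hasFDerivAt.sub hd'.hasFDerivAt
  unfold Dr
  rw [h.fderiv]
  simp

theorem abs_e_le {m : ℕ} (i j : Fin m) : |(e i : E m) j| ≤ 1 := by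
  unfold e
  rcases eq_or_ne i j with rfl | h
  · simp
  · rw [Pi.single_eq_of_ne (Ne.symm h)]; simp

end K9aux

open K9aux

/-- statement of `homotopy` (K4) -/
def HomotopyStmt : Prop := ∀ {m : ℕ} (_ : 1 ≤ m) {φ ψ : E m → E m} (_ : ContDiff ℝ 2 φ)
    (_ : ContDiff ℝ 2 ψ) {χ : E m → ℝ} (_ : ContDiff ℝ 1 χ) (_ : ∀ y, |χ y| ≤ 1)
    {Λ κ : ℝ} (_ : ∀ s ∈ Icc (0:ℝ) 1, ∀ v ∈ cube m, ∀ i j,
      |Dr (fun w => φ w + s • ψ w) v i j| ≤ Λ) (_ : ∀ v ∈ cube m, ‖ψ v‖ ≤ κ),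
    |(∫ v in cube m, χ (φ v + ψ v) * jac (fun w => φ w + ψ w) v)
        - ∫ v in cube m, χ (φ v) * jac φ v| ≤ 2 * m * (m.factorial * Λ ^ (m - 1) * κ)

/-- statement of `small_supp` (K5) -/
def SmallSuppStmt : Prop := ∀ {m : ℕ} (_ : 2 ≤ m) {φ : E m → E m} (_ : ContDiff ℝ 2 φ)
    {χ : E m → ℝ} (_ : ContDiff ℝ 1 χ) (_ : HasCompactSupport χ) (_ : ∀ y, 0 ≤ χ y)
    (_ : ∀ y, χ y ≤ 1) {s : ℝ} (_ : 0 < s) (_ : volume (tsupport χ) ≤ ENNReal.ofReal (s ^ m))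
    {Λ : ℝ} (_ : ∀ v ∈ cube m, ∀ i j, |Dr φ v i j| ≤ Λ),
    |∫ v in cube m, χ (φ v) * jac φ v| ≤ 4 * m * (m.factorial * Λ ^ (m - 1) * s)

/-- statement of `mollify` (K7) -/
def MollifyStmt : Prop := ∀ (m : ℕ), ∃ C : ℝ, 0 < C ∧ ∀ {α H ρ : ℝ}, 0 < α → α ≤ 1 → 0 ≤ H → 0 < ρ →
    ∀ a : E m → E m, (∀ x y, ‖a x - a y‖ ≤ H * ‖x - y‖ ^ α) →
    ∃ b : E m → E m, ContDiff ℝ 2 b ∧ (∀ x, ‖b x - a x‖ ≤ H * ρ ^ α) ∧
      ∀ x i j, |Dr b x i j| ≤ C * (H * ρ ^ (α - 1))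

/-- K9: the key estimate for the mollified maps (from K4, K5, K7). -/
theorem key_of (hom : HomotopyStmt) (ssp : SmallSuppStmt) (mol : MollifyStmt) {m : ℕ} (hm : 2 ≤ m) {α : ℝ} (hα : ((m:ℝ) - 1) / m < α) (hα1 : α ≤ 1) :
    ∃ C : ℝ, 0 < C ∧ ∀ {H : ℝ}, 1 ≤ H → ∀ a : E m → E m,
      (∀ x y, ‖a x - a y‖ ≤ H * ‖x - y‖ ^ α) → ∀ ρ ∈ Ioc (0:ℝ) 1,
      ∃ b : ℕ → E m → E m, (∀ k, ContDiff ℝ 2 (b k)) ∧ ∀ t ∈ Icc (0:ℝ) 1, ∀ s : ℝ, 0 < s →
        volume ((fun v => a v + t • v) '' cube m) < ENNReal.ofReal (s ^ m) →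
        ∀ᶠ k in atTop, |∫ v in cube m, jac (fun w => b k w + t • w) v|
          ≤ C * (H * ρ ^ (α - 1)) ^ (m - 1) * s + C * H ^ m * ρ ^ (1 - m * (1 - α)) := by
  obtain ⟨C₀, hC₀, hmol⟩ := mol m
  have hm0 : (0 : ℝ) < m := by exact_mod_cast (by omega : 0 < m)
  have hm2 : (2 : ℝ) ≤ m := by exact_mod_cast hm
  have hα0 : 0 < α := lt_of_le_of_lt (div_nonneg (by linarith) hm0.le) hα
  set γ : ℝ := 1 - m * (1 - α) with hγdef
  have hγ : 0 < γ := by
    rw [div_lt_iff₀ hm0] at hα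
    rw [hγdef]; linarith
  set r : ℝ := (2 : ℝ) ^ (-γ) with hr
  have hr0 : 0 < r := by positivity
  have hr1 : r < 1 := by
    rw [hr]; exact Real.rpow_lt_one_of_one_lt_of_neg (by norm_num) (by linarith)
  set K : ℝ := 4 * m * m.factorial * (C₀ + 1) ^ (m - 1) with hK
  have hK0 : 0 < K := by positivity
  set K' : ℝ := K * (2 ^ (m - 1) / (1 - r)) with hK'
  have hK'0 : 0 < K' := by
    have : 0 < 1 - r := by linarith
    positivity
  refine ⟨K + K', by positivity, ?_⟩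
  intro H hH a ha ρ hρ
  have hH0 : 0 < H := by linarith
  have hρ0 : 0 < ρ := hρ.1
  set ρk : ℕ → ℝ := fun k => ρ / 2 ^ k with hρk
  have hρk0 : ∀ k, 0 < ρk k := fun k => by rw [hρk]; positivity
  have hρk1 : ∀ k, ρk k ≤ 1 := fun k => by
    rw [hρk]
    simp only
    rw [div_le_one (by positivity)]
    exact hρ.2.trans (one_le_pow₀ (by norm_num))
  have hρk0' : ρk 0 = ρ := by rw [hρk]; simp
  have hρks : ∀ k, ρk (k + 1) = ρk k / 2 := fun k => by
    rw [hρk]; simp only; rw [pow_succ]; field_simp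
  have hex : ∀ k, ∃ b : E m → E m, ContDiff ℝ 2 b ∧ (∀ x, ‖b x - a x‖ ≤ H * (ρk k) ^ α) ∧
      ∀ x i j, |Dr b x i j| ≤ C₀ * (H * (ρk k) ^ (α - 1)) := fun k =>
    hmol hα0 hα1 hH0.le (hρk0 k) a ha
  choose b hb1 hb2 hb3 using hex
  refine ⟨b, hb1, ?_⟩
  intro t ht s hs hvol
  -- the maps `φ k`
  set φ : ℕ → E m → E m := fun k w => b k w + t • w with hφ
  have hφ2 : ∀ k, ContDiff ℝ 2 (φ k) := fun k => (hb1 k).add (contDiff_id.const_smul t)
  -- the constants `L k`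
  set L : ℕ → ℝ := fun k => (C₀ + 1) * (H * (ρk k) ^ (α - 1)) with hL
  have hpow1 : ∀ k, 1 ≤ (ρk k) ^ (α - 1) := fun k =>
    Real.one_le_rpow_of_pos_of_le_one_of_nonpos (hρk0 k) (hρk1 k) (by linarith)
  have hHp : ∀ k, 1 ≤ H * (ρk k) ^ (α - 1) := fun k => by
    have := hpow1 k
    nlinarith
  have hmonoρ : ∀ k, (ρk k) ^ (α - 1) ≤ (ρk (k + 1)) ^ (α - 1) := fun k => by
    apply Real.rpow_le_rpow_of_nonpos (hρk0 _) _ (by linarith)
    rw [hρks]
    linarith [hρk0 k]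
  have hDb : ∀ k v i j, |Dr (b k) v i j| + 1 ≤ L k := fun k v i j => by
    have h1 := hb3 k v i j
    have h2 := hHp k
    rw [hL]
    simp only
    linarith
  have hte : ∀ i j : Fin m, |t * (e i : E m) j| ≤ 1 := fun i j => by
    rw [abs_mul, abs_of_nonneg ht.1]
    have := abs_e_le i j
    have h0 : 0 ≤ |(e i : E m) j| := abs_nonneg _
    nlinarith [ht.2, ht.1]
  have hD0 : ∀ k, ∀ v i j, |Dr (φ k) v i j| ≤ L k := fun k v i j => by
    rw [hφ]
    simp only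
    rw [Dr_add_smul_id (hb1 k)]
    calc _ ≤ |Dr (b k) v i j| + |t * (e i : E m) j| := abs_add_le _ _
      _ ≤ |Dr (b k) v i j| + 1 := by gcongr; exact hte i j
      _ ≤ L k := hDb k v i j
  -- the differences
  set ψ : ℕ → E m → E m := fun k w => φ (k + 1) w - φ k w with hψ
  have hψ2 : ∀ k, ContDiff ℝ 2 (ψ k) := fun k => (hφ2 (k + 1)).sub (hφ2 k)
  have hLmono : ∀ k, L k ≤ L (k + 1) := fun k => by
    rw [hL]
    simp only
    have := hmonoρ k
    gcongr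
  have hDs : ∀ k, ∀ s ∈ Icc (0:ℝ) 1, ∀ v ∈ cube m, ∀ i j,
      |Dr (fun w => φ k w + s • ψ k w) v i j| ≤ L (k + 1) := by
    intro k σ hσ v _ i j
    rw [Dr_add_smul (hφ2 k) (hψ2 k)]
    have e1 : Dr (ψ k) v i j = Dr (φ (k + 1)) v i j - Dr (φ k) v i j :=
      Dr_sub (hφ2 (k + 1)) (hφ2 k) v i j
    rw [e1]
    have e2 : Dr (φ k) v i j + σ * (Dr (φ (k + 1)) v i j - Dr (φ k) v i j) =
        (1 - σ) * Dr (φ k) v i j + σ * Dr (φ (k + 1)) v i j := by ring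
    rw [e2]
    calc _ ≤ |(1 - σ) * Dr (φ k) v i j| + |σ * Dr (φ (k + 1)) v i j| := abs_add_le _ _
      _ = (1 - σ) * |Dr (φ k) v i j| + σ * |Dr (φ (k + 1)) v i j| := by
          rw [abs_mul, abs_mul, abs_of_nonneg hσ.1, abs_of_nonneg (by linarith [hσ.2] : 0 ≤ 1 - σ)]
      _ ≤ (1 - σ) * L (k + 1) + σ * L (k + 1) := by
          have h1 := (hD0 k v i j).trans (hLmono k)
          have h2 := hD0 (k + 1) v i j
          have h3 : 0 ≤ 1 - σ := by linarith [hσ.2]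
          have h4 := hσ.1
          gcongr
      _ = L (k + 1) := by ring
  have hψn : ∀ k, ∀ v ∈ cube m, ‖ψ k v‖ ≤ 2 * H * (ρk k) ^ α := by
    intro k v _
    have e1 : ψ k v = (b (k + 1) v - a v) - (b k v - a v) := by
      rw [hψ, hφ]; simp only; abel
    rw [e1]
    have h1 := hb2 (k + 1) v
    have h2 := hb2 k v
    have h3 : (ρk (k + 1)) ^ α ≤ (ρk k) ^ α := by
      apply Real.rpow_le_rpow (hρk0 _).le _ hα0.le
      rw [hρks]
      linarith [hρk0 k]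
    calc _ ≤ ‖b (k + 1) v - a v‖ + ‖b k v - a v‖ := norm_sub_le _ _
      _ ≤ H * (ρk (k + 1)) ^ α + H * (ρk k) ^ α := add_le_add h1 h2
      _ ≤ H * (ρk k) ^ α + H * (ρk k) ^ α := by gcongr
      _ = _ := by ring
  -- the compact set
  have hacont : Continuous a := by
    rw [continuous_iff_continuousAt]
    intro x
    rw [ContinuousAt, tendsto_iff_norm_sub_tendsto_zero]
    have h1 : Tendsto (fun y => H * ‖y - x‖ ^ α) (𝓝 x) (𝓝 0) := by
      have h2 : Tendsto (fun y : E m => ‖y - x‖) (𝓝 x) (𝓝 0) := by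
        have : Tendsto (fun y : E m => y - x) (𝓝 x) (𝓝 (x - x)) :=
          tendsto_id.sub tendsto_const_nhds
        rw [sub_self] at this
        simpa using this.norm
      have h3 := (h2.rpow_const (p := α) (Or.inr hα0.le)).const_mul H
      rwa [Real.zero_rpow hα0.ne', mul_zero] at h3
    exact squeeze_zero (fun y => norm_nonneg _) (fun y => ha y x) h1
  set A : Set (E m) := (fun v => a v + t • v) '' cube m with hA
  have hAc : IsCompact A := by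
    apply IsCompact.image (isCompact_Icc)
    exact hacont.add (continuous_id.const_smul t)
  obtain ⟨U, hAU, hUo, hUv⟩ := A.exists_isOpen_lt_of_lt _ hvol
  obtain ⟨χ, hχ1, hχc, hχ0, hχle, hχU, δ, hδ, hχδ⟩ := cutoff hAc hUo hAU
  have hχvol : volume (tsupport χ) ≤ ENNReal.ofReal (s ^ m) := (measure_mono hχU).trans hUv.le
  set I : ℕ → ℝ := fun k => ∫ v in cube m, χ (φ k v) * jac (φ k) v with hI
  -- first term
  have hfirst : |I 0| ≤ K * (H * ρ ^ (α - 1)) ^ (m - 1) * s := by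
    have h1 := ssp hm (hφ2 0) hχ1 hχc hχ0 hχle hs hχvol (Λ := L 0)
      (fun v _ i j => hD0 0 v i j)
    refine h1.trans (le_of_eq ?_)
    rw [hK, hL]
    simp only
    rw [hρk0', mul_pow]
    ring
  -- one step
  have hstep : ∀ k, |I (k + 1) - I k| ≤ K * 2 ^ (m - 1) * H ^ m * (ρk k) ^ γ := by
    intro k
    have h1 := hom (by omega : 1 ≤ m) (hφ2 k) (hψ2 k) hχ1
      (fun y => abs_le.2 ⟨by linarith [hχ0 y], hχle y⟩) (Λ := L (k + 1)) (κ := 2 * H * (ρk k) ^ α)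
      (hDs k) (hψn k)
    have e1 : ∀ v, φ k v + ψ k v = φ (k + 1) v := fun v => by rw [hψ]; simp only; abel
    have e2 : (fun w => φ k w + ψ k w) = φ (k + 1) := funext e1
    rw [e2] at h1
    simp only [e1] at h1
    refine h1.trans ?_
    have e3 : (ρk (k + 1)) ^ (α - 1) = (ρk k) ^ (α - 1) * 2 ^ (1 - α) := by
      rw [hρks, Real.div_rpow (hρk0 k).le (by norm_num), div_eq_mul_inv, ← Real.rpow_neg (by norm_num)]
      congr 2
      ring
    have e4 : (2 : ℝ) ^ (1 - α) ≤ 2 := by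
      calc (2 : ℝ) ^ (1 - α) ≤ (2 : ℝ) ^ (1 : ℝ) :=
            Real.rpow_le_rpow_of_exponent_le (by norm_num) (by linarith)
        _ = 2 := Real.rpow_one 2
    have hp0 : 0 < (ρk k) ^ (α - 1) := Real.rpow_pos_of_pos (hρk0 k) _
    have e5 : L (k + 1) ≤ (C₀ + 1) * H * (2 * (ρk k) ^ (α - 1)) := by
      rw [hL]
      simp only
      rw [e3]
      calc (C₀ + 1) * (H * ((ρk k) ^ (α - 1) * 2 ^ (1 - α)))
          ≤ (C₀ + 1) * (H * ((ρk k) ^ (α - 1) * 2)) := by gcongr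
        _ = _ := by ring
    have hL0 : 0 ≤ L (k + 1) := by
      rw [hL]; simp only
      have := Real.rpow_pos_of_pos (hρk0 (k + 1)) (α - 1)
      positivity
    have e6 : L (k + 1) ^ (m - 1) ≤
        (C₀ + 1) ^ (m - 1) * H ^ (m - 1) * (2 ^ (m - 1) * ((ρk k) ^ (α - 1)) ^ (m - 1)) := by
      calc L (k + 1) ^ (m - 1) ≤ ((C₀ + 1) * H * (2 * (ρk k) ^ (α - 1))) ^ (m - 1) := by gcongr
        _ = _ := by rw [mul_pow, mul_pow, mul_pow]
    have e7 : ((ρk k) ^ (α - 1)) ^ (m - 1) * (ρk k) ^ α = (ρk k) ^ γ := by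
      rw [← Real.rpow_natCast, ← Real.rpow_mul (hρk0 k).le, ← Real.rpow_add (hρk0 k)]
      congr 1
      rw [hγdef, Nat.cast_sub (by omega)]
      push_cast
      ring
    have e8 : H ^ (m - 1) * H = H ^ m := by
      rw [← pow_succ]; congr 1; omega
    have hpα : 0 ≤ (ρk k) ^ α := (Real.rpow_pos_of_pos (hρk0 k) _).le
    calc 2 * (m : ℝ) * (m.factorial * L (k + 1) ^ (m - 1) * (2 * H * (ρk k) ^ α))
        ≤ 2 * (m : ℝ) * (m.factorial * ((C₀ + 1) ^ (m - 1) * H ^ (m - 1) *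
          (2 ^ (m - 1) * ((ρk k) ^ (α - 1)) ^ (m - 1))) * (2 * H * (ρk k) ^ α)) := by gcongr
      _ = 4 * m * m.factorial * (C₀ + 1) ^ (m - 1) * 2 ^ (m - 1) * (H ^ (m - 1) * H) *
          (((ρk k) ^ (α - 1)) ^ (m - 1) * (ρk k) ^ α) := by ring
      _ = _ := by rw [e7, e8, hK]
  have hgeo : ∀ k, (ρk k) ^ γ = ρ ^ γ * r ^ k := by
    intro k
    rw [hρk, hr]
    simp only
    rw [Real.div_rpow hρ0.le (by positivity), ← Real.rpow_natCast 2 k, ← Real.rpow_mul (by norm_num),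
      ← Real.rpow_natCast ((2 : ℝ) ^ (-γ)) k, ← Real.rpow_mul (by norm_num), div_eq_mul_inv,
      ← Real.rpow_neg (by norm_num)]
    congr 2
    ring
  have hsum : ∀ k, |I k| ≤ |I 0| + K * 2 ^ (m - 1) * H ^ m * ρ ^ γ * ∑ j ∈ Finset.range k, r ^ j := by
    intro k
    induction k with
    | zero => simp
    | succ k ih =>
      have h1 := hstep k
      rw [hgeo] at h1
      rw [Finset.sum_range_succ]
      have h2 : |I (k + 1)| ≤ |I k| + |I (k + 1) - I k| := by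
        have := abs_add_le (I k) (I (k + 1) - I k)
        rwa [add_sub_cancel] at this
      calc |I (k + 1)| ≤ |I k| + |I (k + 1) - I k| := h2
        _ ≤ (|I 0| + K * 2 ^ (m - 1) * H ^ m * ρ ^ γ * ∑ j ∈ Finset.range k, r ^ j) +
            K * 2 ^ (m - 1) * H ^ m * (ρ ^ γ * r ^ k) := add_le_add ih h1
        _ = _ := by ring
  have hgs : ∀ k, ∑ j ∈ Finset.range k, r ^ j ≤ 1 / (1 - r) := by
    intro k
    rw [geom_sum_eq hr1.ne, le_div_iff₀ (by linarith)]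
    have h3 : r - 1 ≠ 0 := by linarith
    have h4 : (r ^ k - 1) / (r - 1) * (1 - r) = 1 - r ^ k := by
      field_simp
      ring
    rw [h4]
    have : 0 ≤ r ^ k := by positivity
    linarith
  -- large `k`
  have hlim : Tendsto (fun k => H * (ρk k) ^ α) atTop (𝓝 0) := by
    have h1 : Tendsto ρk atTop (𝓝 0) := by
      have : Tendsto (fun k : ℕ => ρ * (1 / 2 : ℝ) ^ k) atTop (𝓝 (ρ * 0)) :=
        (tendsto_pow_atTop_nhds_zero_of_lt_one (by norm_num) (by norm_num)).const_mul ρ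
      rw [mul_zero] at this
      refine this.congr fun k => ?_
      rw [hρk]
      simp only
      rw [one_div, inv_pow, ← div_eq_mul_inv]
    have h2 := (h1.rpow_const (p := α) (Or.inr hα0.le)).const_mul H
    rwa [Real.zero_rpow hα0.ne', mul_zero] at h2
  filter_upwards [hlim.eventually_lt_const hδ] with k hk
  have hone : ∀ v ∈ cube m, χ (φ k v) = 1 := by
    intro v hv
    apply hχδ
    rw [Metric.mem_thickening_iff]
    refine ⟨a v + t • v, ⟨v, hv, rfl⟩, ?_⟩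
    rw [dist_eq_norm]
    have e1 : φ k v - (a v + t • v) = b k v - a v := by
      rw [hφ]; simp only; abel
    rw [e1]
    exact (hb2 k v).trans_lt hk
  have heq : ∫ v in cube m, jac (fun w => b k w + t • w) v = I k := by
    rw [hI]
    simp only
    refine setIntegral_congr_fun measurableSet_Icc fun v hv => ?_
    rw [hone v hv, one_mul]
  rw [heq]
  have hHm : 0 < H ^ m := by positivity
  have hργ : 0 < ρ ^ γ := Real.rpow_pos_of_pos hρ0 _
  have hX : 0 < (H * ρ ^ (α - 1)) ^ (m - 1) := by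
    have := Real.rpow_pos_of_pos hρ0 (α - 1)
    positivity
  calc |I k| ≤ |I 0| + K * 2 ^ (m - 1) * H ^ m * ρ ^ γ * ∑ j ∈ Finset.range k, r ^ j := hsum k
    _ ≤ K * (H * ρ ^ (α - 1)) ^ (m - 1) * s + K * 2 ^ (m - 1) * H ^ m * ρ ^ γ * (1 / (1 - r)) := by
        have := hgs k
        gcongr
    _ = K * (H * ρ ^ (α - 1)) ^ (m - 1) * s + K' * H ^ m * ρ ^ γ := by
        rw [hK']; ring
    _ ≤ (K + K') * (H * ρ ^ (α - 1)) ^ (m - 1) * s + (K + K') * H ^ m * ρ ^ γ := by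
        have h1 : 0 ≤ K' * (H * ρ ^ (α - 1)) ^ (m - 1) * s := by positivity
        have h2 : 0 ≤ K * H ^ m * ρ ^ γ := by positivity
        nlinarith

end Pool.Agent.H749R2.Kak
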