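import Pool.Agent.H749R2.Kak.K4
import Pool.Agent.H749R2.Kak.K5
import Pool.Agent.H749R2.Kak.K7
import Pool.Agent.H749R2.Kak.K9
import Pool.Agent.H749R2.Kak.K10
import Pool.Agent.H749R2.Kak.K11

/-!
# Kakeya sets with Hoelder continuous selections: the final theorem
-/

set_option autoImplicit false
open MeasureTheory Set Filter Topology

namespace Pool.Agent.H749R2.Kak

/-- the theorem on the cube -/
theorem cube_thm {m : ℕ} (hm : 2 ≤ m) {α : ℝ} (hα : ((m:ℝ) - 1) / m < α) (hα1 : α ≤ 1) :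
    ∃ c : ℝ, 0 < c ∧ ∀ {H : ℝ}, 1 ≤ H → ∀ a : E m → E m,
      (∀ x ∈ cube m, ∀ y ∈ cube m, ‖a x - a y‖ ≤ H * ‖x - y‖ ^ α) →
      ENNReal.ofReal (c * H ^ (-kap m α)) ≤ volume (segs a) :=
  cube_of hm hα hα1 (key_of @homotopy @small_supp @mollify hm hα hα1)

/-- the Euclidean theorem -/
theorem kakeya_cap {n : ℕ} (hn : 3 ≤ n) {α : ℝ} (hα : ((n:ℝ) - 2) / (n - 1) < α) (hα1 : α ≤ 1)
    {r ℓ : ℝ} (hr : 0 < r) (hℓ : 0 < ℓ) :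
    ∃ c : ℝ, 0 < c ∧ ∀ H : ℝ, 1 ≤ H → ∀ d₀ : EuclideanSpace ℝ (Fin n), ‖d₀‖ = 1 →
      ∀ (K : Set (EuclideanSpace ℝ (Fin n)))
      (p : EuclideanSpace ℝ (Fin n) → EuclideanSpace ℝ (Fin n)),
      (∀ d d', ‖d‖ = 1 → ‖d'‖ = 1 → ‖d - d₀‖ < r → ‖d' - d₀‖ < r →
        ‖p d - p d'‖ ≤ H * ‖d - d'‖ ^ α) →
      (∀ d, ‖d‖ = 1 → ‖d - d₀‖ < r → ∀ s : ℝ, |s| ≤ ℓ → p d + s • d ∈ K) →
      ENNReal.ofReal (c * H ^ (-((((n:ℝ) - 1) + ((n:ℝ) - 1) * (n - 2) *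
        (1 + (n - 1) * (1 - α) / (1 - (n - 1) * (1 - α)))) / α))) ≤ volume K := by
  obtain ⟨m, rfl⟩ : ∃ m, n = m + 1 := ⟨n - 1, by omega⟩
  have hm : 2 ≤ m := by omega
  have hm2 : (2:ℝ) ≤ m := by exact_mod_cast hm
  have e1 : (((m + 1 : ℕ) : ℝ) - 1) = m := by push_cast; ring
  have e2 : (((m + 1 : ℕ) : ℝ) - 2) = m - 1 := by push_cast; ring
  rw [e1, e2] at hα
  have hα0 : 0 < α := lt_of_le_of_lt (div_nonneg (by linarith) (by linarith)) hα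
  obtain ⟨c, hc, hcube⟩ := cube_thm hm hα hα1
  obtain ⟨c', hc', h⟩ := K11.in_cap (by omega) hα0 hα1 hc hcube hr hℓ
  refine ⟨c', hc', fun H hH d₀ hd₀ K p hp hK => ?_⟩
  rw [e1, e2]
  exact h H hH d₀ hd₀ K p hp hK

end Pool.Agent.H749R2.Kak
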