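import Pool.Agent.H749R2.Kak.Defs

/-!
# K1: the Piola identity for `C²` maps
-/

set_option autoImplicit false
open MeasureTheory Set Filter Topology
open scoped BigOperators

namespace Pool.Agent.H749R2.Kak

/-- the determinant as a continuous multilinear function of the rows -/
noncomputable def detC (m : ℕ) : ContinuousMultilinearMap ℝ (fun _ : Fin m => E m) ℝ :=
  { (Matrix.detRowAlternating : (Fin m → ℝ) [⋀^Fin m]→ₗ[ℝ] ℝ).toMultilinearMap with
    cont := Continuous.matrix_det (A := fun M : Matrix (Fin m) (Fin m) ℝ => M) continuous_id }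

theorem detC_apply {m : ℕ} (M : Fin m → E m) : detC m M = Matrix.det M := rfl

theorem detC_swap {m : ℕ} (M : Fin m → E m) (g s : E m) {j k : Fin m} (hjk : j ≠ k) :
    detC m (Function.update (Function.update M j g) k s)
      = - detC m (Function.update (Function.update M k g) j s) := by
  have h : Function.update (Function.update M j g) k s
      = (Function.update (Function.update M k g) j s) ∘ Equiv.swap j k := by
    funext i
    simp only [Function.comp_apply]
    by_cases hi : i = j
    · subst hi
      rw [Equiv.swap_apply_left, Function.update_of_ne hjk, Function.update_self,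
        Function.update_of_ne hjk.symm, Function.update_self]
    · by_cases hi2 : i = k
      · subst hi2
        rw [Equiv.swap_apply_right, Function.update_self, Function.update_self]
      · rw [Equiv.swap_apply_of_ne_of_ne hi hi2, Function.update_of_ne hi2,
          Function.update_of_ne hi, Function.update_of_ne hi, Function.update_of_ne hi2]
  rw [h]
  have := (Matrix.detRowAlternating : (Fin m → ℝ) [⋀^Fin m]→ₗ[ℝ] ℝ).map_swap
    (Function.update (Function.update M k g) j s) hjk
  exact this

/-- the second order term -/
noncomputable def D2 {m : ℕ} (φ : E m → E m) (v : E m) (j k : Fin m) : E m :=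
  fderiv ℝ (fun w => fderiv ℝ φ w (e k)) v (e j)

theorem fderiv_apply_diff {m : ℕ} {φ : E m → E m} (hφ : ContDiff ℝ 2 φ) (v : E m) (x : E m) :
    HasFDerivAt (fun w => fderiv ℝ φ w x) ((fderiv ℝ (fderiv ℝ φ) v).flip x) v := by
  have h1 : ContDiff ℝ 1 (fderiv ℝ φ) := hφ.fderiv_right (by norm_num)
  have h2 : HasFDerivAt (fderiv ℝ φ) (fderiv ℝ (fderiv ℝ φ) v) v :=
    (h1.differentiable (by norm_num) v).hasFDerivAt
  have h3 := h2.clm_apply (hasFDerivAt_const x v)
  have h4 : (fderiv ℝ φ v).comp (0 : E m →L[ℝ] E m) + (fderiv ℝ (fderiv ℝ φ) v).flip x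
      = (fderiv ℝ (fderiv ℝ φ) v).flip x := by
    ext y
    simp
  exact h4 ▸ h3

theorem D2_symm {m : ℕ} {φ : E m → E m} (hφ : ContDiff ℝ 2 φ) (v : E m) (j k : Fin m) :
    D2 φ v j k = D2 φ v k j := by
  unfold D2
  rw [(fderiv_apply_diff hφ v (e k)).fderiv, (fderiv_apply_diff hφ v (e j)).fderiv]
  simp only [ContinuousLinearMap.flip_apply]
  have := (hφ.contDiffAt (x := v)).isSymmSndFDerivAt (by simp)
  exact this (e j) (e k)

theorem hasFDerivAt_row {m : ℕ} {φ G : E m → E m} (hφ : ContDiff ℝ 2 φ) (hG : ContDiff ℝ 1 G)
    (v : E m) (j : Fin m) :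
    HasFDerivAt (fun w => ((Dr φ w).updateRow j (G w)).det)
      (((detC m).linearDeriv (Function.update (Dr φ v) j (G v))).comp
        (ContinuousLinearMap.pi (fun k => if k = j then fderiv ℝ G v
          else fderiv ℝ (fun w => fderiv ℝ φ w (e k)) v))) v := by
  have h1 : HasFDerivAt (fun w => (Function.update (Dr φ w) j (G w) : Fin m → E m))
      (ContinuousLinearMap.pi (fun k => if k = j then fderiv ℝ G v
          else fderiv ℝ (fun w => fderiv ℝ φ w (e k)) v)) v := by
    rw [hasFDerivAt_pi]
    intro k
    by_cases hk : k = j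
    · subst hk
      have h0 : (fun w => (Function.update (Dr φ w) k (G w) : Fin m → E m) k) = G := by
        funext w
        exact Function.update_self _ _ _
      have h5 : HasFDerivAt G (fderiv ℝ G v) v := (hG.differentiable (by norm_num) v).hasFDerivAt
      simp only [if_true]
      exact h5.congr_of_eventuallyEq (Filter.Eventually.of_forall fun w => congrFun h0 w)
    · have h0 : (fun w => (Function.update (Dr φ w) j (G w) : Fin m → E m) k)
          = fun w => fderiv ℝ φ w (e k) := by
        funext w
        exact Function.update_of_ne hk _ _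
      simp only [if_neg hk]
      exact h0 ▸ (fderiv_apply_diff hφ v (e k)).differentiableAt.hasFDerivAt
  have h2 := ((detC m).hasFDerivAt (Function.update (Dr φ v) j (G v))).comp v h1
  exact h2

/-- K1: Piola identity. -/
theorem piola {m : ℕ} {φ G : E m → E m} (hφ : ContDiff ℝ 2 φ) (hG : ContDiff ℝ 1 G) (v : E m) :
    (∀ j : Fin m, DifferentiableAt ℝ (fun w => ((Dr φ w).updateRow j (G w)).det) v) ∧
    ∑ j, fderiv ℝ (fun w => ((Dr φ w).updateRow j (G w)).det) v (e j)
      = ∑ j, ((Dr φ v).updateRow j (fderiv ℝ G v (e j))).det := by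
  refine ⟨fun j => (hasFDerivAt_row hφ hG v j).differentiableAt, ?_⟩
  have key : ∀ j : Fin m, fderiv ℝ (fun w => ((Dr φ w).updateRow j (G w)).det) v (e j)
      = ((Dr φ v).updateRow j (fderiv ℝ G v (e j))).det
        + ∑ k, (if k = j then 0 else
          detC m (Function.update (Function.update (Dr φ v) j (G v)) k (D2 φ v j k))) := by
    intro j
    rw [(hasFDerivAt_row hφ hG v j).fderiv]
    rw [ContinuousLinearMap.comp_apply, ContinuousMultilinearMap.linearDeriv_apply]
    rw [← Finset.add_sum_erase _ _ (Finset.mem_univ j)]
    rw [← Finset.add_sum_erase (Finset.univ : Finset (Fin m)) (fun k => (if k = j then 0 else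
          detC m (Function.update (Function.update (Dr φ v) j (G v)) k (D2 φ v j k))))
          (Finset.mem_univ j)]
    simp only [if_true, zero_add]
    congr 1
    · simp only [ContinuousLinearMap.coe_pi', if_true]
      have h0 : (Function.update (Function.update (Dr φ v) j (G v)) j (fderiv ℝ G v (e j))
          : Fin m → E m) = Function.update (Dr φ v) j (fderiv ℝ G v (e j)) :=
        Function.update_idem _ _ _
      exact congrArg (detC m) h0
    · apply Finset.sum_congr rfl
      intro k hk
      have hkj : k ≠ j := Finset.ne_of_mem_erase hk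
      simp only [ContinuousLinearMap.coe_pi', if_neg hkj]
      rfl
  rw [Finset.sum_congr rfl (fun j _ => key j), Finset.sum_add_distrib]
  have hzero : ∑ j : Fin m, ∑ k : Fin m, (if k = j then 0 else
          detC m (Function.update (Function.update (Dr φ v) j (G v)) k (D2 φ v j k))) = 0 := by
    set S := ∑ j : Fin m, ∑ k : Fin m, (if k = j then 0 else
          detC m (Function.update (Function.update (Dr φ v) j (G v)) k (D2 φ v j k))) with hS
    have : S = -S := by
      conv_rhs => rw [hS, Finset.sum_comm]
      rw [hS, ← Finset.sum_neg_distrib]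
      apply Finset.sum_congr rfl
      intro j _
      rw [← Finset.sum_neg_distrib]
      apply Finset.sum_congr rfl
      intro k _
      by_cases h : k = j
      · subst h; simp
      · rw [if_neg h, if_neg (Ne.symm h), D2_symm hφ v j k]
        exact detC_swap _ _ _ (Ne.symm h)
    linarith
  rw [hzero, add_zero]

/-- K1: continuity of the divergence. -/
theorem piola_cont {m : ℕ} {φ G : E m → E m} (hφ : ContDiff ℝ 2 φ) (hG : ContDiff ℝ 1 G) :
    Continuous fun v => ∑ j, ((Dr φ v).updateRow j (fderiv ℝ G v (e j))).det := by
  have h1 : Continuous (fderiv ℝ φ) := hφ.continuous_fderiv (by norm_num)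
  have h2 : Continuous (fderiv ℝ G) := hG.continuous_fderiv (by norm_num)
  apply continuous_finsetSum
  intro j _
  apply Continuous.matrix_det
  refine continuous_pi fun k => ?_
  by_cases hk : k = j
  · subst hk
    simp only [Matrix.updateRow_self]
    exact h2.clm_apply continuous_const
  · simp only [Matrix.updateRow_ne hk]
    exact h1.clm_apply continuous_const

end Pool.Agent.H749R2.Kak

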