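import Pool.Agent.H749R2.Kak.K1
import Pool.Agent.H749R2.Kak.K2
import Pool.Agent.H749R2.Kak.K3

set_option autoImplicit false
open MeasureTheory Set Filter Topology
open scoped BigOperators

namespace Pool.Agent.H749R2.Kak

lemma k4_continuous_Dr {m : ℕ} {φ : E m → E m} (hφ : ContDiff ℝ 1 φ) : Continuous (Dr φ) := by
  refine continuous_pi fun j => ?_
  exact (hφ.continuous_fderiv (by norm_num)).clm_apply continuous_const

lemma k4_Dr_add_smul {m : ℕ} {φ ψ : E m → E m} (hφ : Differentiable ℝ φ)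
    (hψ : Differentiable ℝ ψ) (s : ℝ) (v : E m) :
    Dr (fun w => φ w + s • ψ w) v = Dr φ v + s • Dr ψ v := by
  funext j
  have h : HasFDerivAt (fun w => φ w + s • ψ w) (fderiv ℝ φ v + s • fderiv ℝ ψ v) v :=
    (hφ v).hasFDerivAt.add ((hψ v).hasFDerivAt.const_smul s)
  simp only [Dr, h.fderiv]
  rfl

/-- the derivative in `s` of the integrand -/
noncomputable def k4F {m : ℕ} (φ ψ : E m → E m) (χ : E m → ℝ) (s : ℝ) (v : E m) : ℝ :=
  fderiv ℝ χ (φ v + s • ψ v) (ψ v) * (Dr φ v + s • Dr ψ v).det +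
    χ (φ v + s • ψ v) * ∑ j, ((Dr φ v + s • Dr ψ v).updateRow j (Dr ψ v j)).det

lemma k4F_continuous {m : ℕ} {φ ψ : E m → E m} (hφ : ContDiff ℝ 1 φ)
    (hψ : ContDiff ℝ 1 ψ) {χ : E m → ℝ} (hχ : ContDiff ℝ 1 χ) :
    Continuous fun p : ℝ × E m => k4F φ ψ χ p.1 p.2 := by
  have hDφ := k4_continuous_Dr hφ
  have hDψ := k4_continuous_Dr hψ
  have hφc := hφ.continuous
  have hψc := hψ.continuous
  have hχc := hχ.continuous
  have hpt : Continuous fun p : ℝ × E m => φ p.2 + p.1 • ψ p.2 := by fun_prop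
  have hM : Continuous fun p : ℝ × E m => Dr φ p.2 + p.1 • Dr ψ p.2 :=
    (hDφ.comp continuous_snd).add (continuous_fst.smul (hDψ.comp continuous_snd))
  unfold k4F
  refine Continuous.add (Continuous.mul ?_ hM.matrix_det) (Continuous.mul (hχc.comp hpt) ?_)
  · exact ((hχ.continuous_fderiv (by norm_num)).comp hpt).clm_apply (hψc.comp continuous_snd)
  · refine continuous_finsetSum _ fun j _ => ?_
    refine Continuous.matrix_det ?_
    refine hM.matrix_updateRow j ?_
    exact (continuous_apply j).comp (hDψ.comp continuous_snd)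

lemma k4_hasDerivAt {m : ℕ} {φ ψ : E m → E m} {χ : E m → ℝ} (hχ : ContDiff ℝ 1 χ)
    (s : ℝ) (v : E m) :
    HasDerivAt (fun s : ℝ => χ (φ v + s • ψ v) * (Dr φ v + s • Dr ψ v).det)
      (k4F φ ψ χ s v) s := by
  have h1 : HasDerivAt (fun s : ℝ => φ v + s • ψ v) (ψ v) s := by
    simpa using ((hasDerivAt_id s).smul_const (ψ v)).const_add (φ v)
  have h2 : HasDerivAt (fun s : ℝ => χ (φ v + s • ψ v)) (fderiv ℝ χ (φ v + s • ψ v) (ψ v)) s := by
    have := ((hχ.differentiable (by norm_num)) (φ v + s • ψ v)).hasFDerivAt.comp_hasDerivAt s h1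
    exact this
  exact h2.mul (hasDerivAt_det (Dr φ v) (Dr ψ v) s)

lemma k4_div {m : ℕ} {φ ψ : E m → E m} (hφ : ContDiff ℝ 2 φ)
    (hψ : ContDiff ℝ 2 ψ) {χ : E m → ℝ} (hχ : ContDiff ℝ 1 χ) (s : ℝ) (v : E m) :
    ∑ j, ((Dr (fun w => φ w + s • ψ w) v).updateRow j
      (fderiv ℝ (fun w => χ (φ w + s • ψ w) • ψ w) v (e j))).det = k4F φ ψ χ s v := by
  have hφ1 : Differentiable ℝ φ := hφ.differentiable (by norm_num)
  have hψ1 : Differentiable ℝ ψ := hψ.differentiable (by norm_num)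
  have hχ1 : Differentiable ℝ χ := hχ.differentiable (by norm_num)
  have hin : HasFDerivAt (fun w => φ w + s • ψ w) (fderiv ℝ φ v + s • fderiv ℝ ψ v) v :=
    (hφ1 v).hasFDerivAt.add ((hψ1 v).hasFDerivAt.const_smul s)
  have hcomp : HasFDerivAt (fun w => χ (φ w + s • ψ w))
      ((fderiv ℝ χ (φ v + s • ψ v)).comp (fderiv ℝ φ v + s • fderiv ℝ ψ v)) v :=
    (hχ1 (φ v + s • ψ v)).hasFDerivAt.comp v hin
  have hG := hcomp.smul (hψ1 v).hasFDerivAt
  rw [k4_Dr_add_smul hφ1 hψ1]
  have hGe : ∀ j : Fin m, fderiv ℝ (fun w => χ (φ w + s • ψ w) • ψ w) v (e j)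
      = χ (φ v + s • ψ v) • Dr ψ v j
        + (fderiv ℝ χ (φ v + s • ψ v) ((Dr φ v + s • Dr ψ v) j)) • ψ v := by
    intro j
    have : fderiv ℝ (fun w => χ (φ w + s • ψ w) • ψ w) v = _ := hG.fderiv
    rw [this]
    rfl
  simp only [hGe, Matrix.det_updateRow_add, Matrix.det_updateRow_smul, Finset.sum_add_distrib]
  rw [← Finset.mul_sum, sum_mul_det, k4F]
  ring

/-- K4: homotopy estimate. -/
theorem homotopy {m : ℕ} (hm : 1 ≤ m) {φ ψ : E m → E m} (hφ : ContDiff ℝ 2 φ)
    (hψ : ContDiff ℝ 2 ψ) {χ : E m → ℝ} (hχ : ContDiff ℝ 1 χ) (h1 : ∀ y, |χ y| ≤ 1)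
    {Λ κ : ℝ} (hD : ∀ s ∈ Icc (0:ℝ) 1, ∀ v ∈ cube m, ∀ i j,
      |Dr (fun w => φ w + s • ψ w) v i j| ≤ Λ) (hκ : ∀ v ∈ cube m, ‖ψ v‖ ≤ κ) :
    |(∫ v in cube m, χ (φ v + ψ v) * jac (fun w => φ w + ψ w) v)
        - ∫ v in cube m, χ (φ v) * jac φ v| ≤ 2 * m * (m.factorial * Λ ^ (m - 1) * κ) := by
  have hφ1 : Differentiable ℝ φ := hφ.differentiable (by norm_num)
  have hψ1 : Differentiable ℝ ψ := hψ.differentiable (by norm_num)
  have hφC : ContDiff ℝ 1 φ := hφ.of_le (by norm_num)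
  have hψC : ContDiff ℝ 1 ψ := hψ.of_le (by norm_num)
  have hFc := k4F_continuous hφC hψC hχ
  have hcomp : IsCompact (cube m) := isCompact_Icc
  -- bound of the derivative of the integral
  have hbd : ∀ s ∈ Icc (0:ℝ) 1, |∫ v in cube m, k4F φ ψ χ s v|
      ≤ 2 * m * (m.factorial * Λ ^ (m - 1) * κ) := by
    intro s hs
    have hφs : ContDiff ℝ 2 (fun w => φ w + s • ψ w) := hφ.add (hψ.const_smul s)
    have hGs : ContDiff ℝ 1 (fun w => χ (φ w + s • ψ w) • ψ w) :=
      (hχ.comp (hφs.of_le (by norm_num))).smul hψC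
    have hdiv := div_cube hm
      (Y := fun j w => ((Dr (fun w => φ w + s • ψ w) w).updateRow j
        (χ (φ w + s • ψ w) • ψ w)).det)
      (fun j v => (piola hφs hGs v).1 j)
      (K := m.factorial * Λ ^ (m - 1) * κ) ?_ ?_
    · have : ∀ v, ∑ j, fderiv ℝ (fun w => ((Dr (fun w => φ w + s • ψ w) w).updateRow j
        (χ (φ w + s • ψ w) • ψ w)).det) v (e j) = k4F φ ψ χ s v := by
        intro v
        rw [(piola hφs hGs v).2, k4_div hφ hψ hχ]
      simpa only [this] using hdiv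
    · have : ∀ v, ∑ j, fderiv ℝ (fun w => ((Dr (fun w => φ w + s • ψ w) w).updateRow j
        (χ (φ w + s • ψ w) • ψ w)).det) v (e j) = k4F φ ψ χ s v := by
        intro v
        rw [(piola hφs hGs v).2, k4_div hφ hψ hχ]
      simp only [this]
      exact hFc.comp (continuous_const.prodMk continuous_id)
    · intro j v hv
      refine abs_det_updateRow_le (hD s hs v hv) ?_ j
      rw [norm_smul, Real.norm_eq_abs]
      calc |χ (φ v + s • ψ v)| * ‖ψ v‖ ≤ 1 * ‖ψ v‖ :=
            mul_le_mul_of_nonneg_right (h1 _) (norm_nonneg _)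
        _ = ‖ψ v‖ := one_mul _
        _ ≤ κ := hκ v hv
  -- the integral as a function of `s`
  set g : ℝ → ℝ := fun s => ∫ v in cube m, χ (φ v + s • ψ v) * (Dr φ v + s • Dr ψ v).det with hg
  have hint : Continuous fun p : ℝ × E m =>
      χ (φ p.2 + p.1 • ψ p.2) * (Dr φ p.2 + p.1 • Dr ψ p.2).det := by
    have hDφ := k4_continuous_Dr hφC
    have hDψ := k4_continuous_Dr hψC
    have hφc := hφ.continuous
    have hψc := hψ.continuous
    have hχc := hχ.continuous
    have hpt : Continuous fun p : ℝ × E m => φ p.2 + p.1 • ψ p.2 := by fun_prop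
    have hM : Continuous fun p : ℝ × E m => Dr φ p.2 + p.1 • Dr ψ p.2 :=
      (hDφ.comp continuous_snd).add (continuous_fst.smul (hDψ.comp continuous_snd))
    exact (hχc.comp hpt).mul hM.matrix_det
  have hderiv : ∀ s, HasDerivAt g (∫ v in cube m, k4F φ ψ χ s v) s := by
    intro s
    -- uniform bound on `[s-1,s+1] × cube`
    obtain ⟨B, hB⟩ := ((isCompact_Icc (a := s - 1) (b := s + 1)).prod hcomp).exists_bound_of_continuousOn
      hFc.continuousOn
    have key := hasDerivAt_integral_of_dominated_loc_of_deriv_le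
      (μ := volume.restrict (cube m)) (bound := fun _ => B) (x₀ := s)
      (F := fun s v => χ (φ v + s • ψ v) * (Dr φ v + s • Dr ψ v).det)
      (F' := fun s v => k4F φ ψ χ s v) (s := Metric.ball s 1)
      (Metric.ball_mem_nhds s one_pos) ?_ ?_ ?_ ?_ ?_ ?_
    · exact key.2
    · refine Eventually.of_forall fun x => ?_
      exact (hint.comp (continuous_const.prodMk continuous_id)).aestronglyMeasurable
    · exact (hint.comp (continuous_const.prodMk continuous_id)).continuousOn.integrableOn_compact hcomp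
    · exact (hFc.comp (continuous_const.prodMk continuous_id)).aestronglyMeasurable
    · refine (ae_restrict_iff' (hcomp.measurableSet)).2 (Eventually.of_forall fun v hv x hx => ?_)
      refine hB (x, v) ⟨?_, hv⟩
      rw [Metric.mem_ball, Real.dist_eq, abs_lt] at hx
      exact ⟨by linarith [hx.1], by linarith [hx.2]⟩
    · exact (integrable_const_iff.2 (Or.inr (by
        rw [isFiniteMeasure_restrict]; exact hcomp.measure_lt_top.ne)))
    · exact Eventually.of_forall fun v x _ => k4_hasDerivAt hχ x v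
  have hmv := norm_image_sub_le_of_norm_deriv_le_segment_01' (f := g)
    (f' := fun s => ∫ v in cube m, k4F φ ψ χ s v) (C := 2 * m * (m.factorial * Λ ^ (m - 1) * κ))
    (fun s hs => (hderiv s).hasDerivWithinAt) (fun s hs => hbd s ⟨hs.1, hs.2.le⟩)
  have e1 : g 1 = ∫ v in cube m, χ (φ v + ψ v) * jac (fun w => φ w + ψ w) v := by
    simp only [hg, one_smul]
    refine integral_congr_ae (Eventually.of_forall fun v => ?_)
    simp only [jac]
    have := k4_Dr_add_smul hφ1 hψ1 1 v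
    simp only [one_smul] at this
    rw [this]
  have e0 : g 0 = ∫ v in cube m, χ (φ v) * jac φ v := by
    simp only [hg, zero_smul, add_zero, jac]
  rw [← e1, ← e0]
  exact hmv

end Pool.Agent.H749R2.Kak
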